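import Pool.Agent.MR4.Defs

set_option autoImplicit false

namespace Pool.Agent.MR4

open Matrix

lemma RK.mono {r r' : ℕ} {M : Sl} (h : RK r M) (hr : r ≤ r') : RK r' M := by
  obtain ⟨a, b, c, h⟩ := h
  refine ⟨fun s k => if hs : s.1 < r then a ⟨s.1, hs⟩ k else 0,
    fun s k => if hs : s.1 < r then b ⟨s.1, hs⟩ k else 0,
    fun s k => if hs : s.1 < r then c ⟨s.1, hs⟩ k else 0, fun k i j => ?_⟩
  rw [h]
  refine Fintype.sum_of_injective (Fin.castLE hr) (Fin.castLE_injective hr) _ _ ?_ ?_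
  · intro s hs
    have : ¬ s.1 < r := fun hlt => hs ⟨⟨s.1, hlt⟩, by ext; simp⟩
    simp [this]
  · intro s
    simp

lemma RK.add {r r' : ℕ} {M M' : Sl} (h : RK r M) (h' : RK r' M') :
    RK (r + r') (fun k => M k + M' k) := by
  obtain ⟨a, b, c, h⟩ := h
  obtain ⟨a', b', c', h'⟩ := h'
  refine ⟨Fin.append a a', Fin.append b b', Fin.append c c', fun k i j => ?_⟩
  simp only [Matrix.add_apply, h, h']
  rw [Fin.sum_univ_add]
  simp

lemma RK_one (a b c : Fin 4 → ℂ) : RK 1 (fun k => a k • vecMulVec b c) :=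
  ⟨fun _ => a, fun _ => b, fun _ => c, fun k i j => by simp [vecMulVec_apply]; ring⟩

lemma RK.zero : RK 0 (fun _ => 0) := ⟨fun _ => 0, fun _ => 0, fun _ => 0, by simp⟩

lemma RK.add_one {r : ℕ} {M : Sl} (h : RK r M) (a b c : Fin 4 → ℂ) :
    RK (r + 1) (fun k => M k + a k • vecMulVec b c) := h.add (RK_one a b c)

/-- Removing one decomposable array. -/
lemma RK.of_add_one {r : ℕ} {M : Sl} (a b c : Fin 4 → ℂ)
    (h : RK r (fun k => M k + a k • vecMulVec b c)) : RK (r + 1) M := by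
  have := h.add_one (fun k => - a k) b c
  simpa [add_assoc, ← add_smul] using this

lemma RK.mul {r : ℕ} {M : Sl} (h : RK r M) (P Q : Matrix (Fin 4) (Fin 4) ℂ) :
    RK r (fun k => P * M k * Q) := by
  obtain ⟨a, b, c, h⟩ := h
  refine ⟨a, fun s => P *ᵥ b s, fun s => c s ᵥ* Q, fun k i j => ?_⟩
  simp only [Matrix.mul_apply, h, mulVec, vecMul, dotProduct]
  simp only [Finset.sum_mul, Finset.mul_sum]
  calc ∑ y, ∑ x, ∑ s, P i x * (a s k * b s x * c s y) * Q y j
      = ∑ y, ∑ s, ∑ x, P i x * (a s k * b s x * c s y) * Q y j := by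
        refine Finset.sum_congr rfl fun x _ => Finset.sum_comm
    _ = ∑ s, ∑ y, ∑ x, P i x * (a s k * b s x * c s y) * Q y j := Finset.sum_comm
    _ = _ := by
        refine Finset.sum_congr rfl fun s _ => ?_
        refine Finset.sum_congr rfl fun y _ => Finset.sum_congr rfl fun x _ => ?_
        ring

/-- Rank does not change under invertible row and column operations. -/
lemma RK.of_mul {r : ℕ} {M : Sl} (P Q : Matrix (Fin 4) (Fin 4) ℂ) (hP : IsUnit P.det)
    (hQ : IsUnit Q.det) (h : RK r (fun k => P * M k * Q)) : RK r M := by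
  have := h.mul P⁻¹ Q⁻¹
  have e : (fun k => P⁻¹ * (P * M k * Q) * Q⁻¹) = M := by
    funext k
    rw [Matrix.mul_assoc P, Matrix.nonsing_inv_mul_cancel_left _ _ hP,
      Matrix.mul_nonsing_inv_cancel_right _ _ hQ]
  rwa [e] at this

lemma RK.mix {r : ℕ} {M : Sl} (h : RK r M) (g : Matrix (Fin 4) (Fin 4) ℂ) :
    RK r (fun k => ∑ l, g k l • M l) := by
  obtain ⟨a, b, c, h⟩ := h
  refine ⟨fun s => g *ᵥ a s, b, c, fun k i j => ?_⟩
  simp only [Matrix.sum_apply, Matrix.smul_apply, smul_eq_mul, h, mulVec, dotProduct,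
    Finset.sum_mul, Finset.mul_sum]
  rw [Finset.sum_comm]
  refine Finset.sum_congr rfl fun s _ => Finset.sum_congr rfl fun l _ => ?_
  ring

/-- Rank does not change under invertible mixing of the slices. -/
lemma RK.of_mix {r : ℕ} {M : Sl} (g : Matrix (Fin 4) (Fin 4) ℂ) (hg : IsUnit g.det)
    (h : RK r (fun k => ∑ l, g k l • M l)) : RK r M := by
  have := h.mix g⁻¹
  have e : (fun k => ∑ l, g⁻¹ k l • ∑ m, g l m • M m) = M := by
    funext k
    simp only [Finset.smul_sum, smul_smul]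
    rw [Finset.sum_comm]
    simp only [← Finset.sum_smul]
    have h1 : ∀ m, ∑ l, g⁻¹ k l * g l m = (1 : Matrix (Fin 4) (Fin 4) ℂ) k m := by
      intro m
      rw [← Matrix.nonsing_inv_mul _ hg, Matrix.mul_apply]
    simp only [h1, Matrix.one_apply]
    simp
  rwa [e] at this

/-- Simultaneously diagonal slices. -/
lemma RK_diag (P Q : Matrix (Fin 4) (Fin 4) ℂ) (d : Fin 4 → Fin 4 → ℂ) :
    RK 4 (fun k => P * diagonal (d k) * Q) := by
  refine RK.mul ⟨fun s k => d k s, fun s => Pi.single s 1, fun s => Pi.single s 1,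
    fun k i j => ?_⟩ P Q
  by_cases h : i = j
  · subst h
    simp [Pi.single_apply]
  · rw [diagonal_apply_ne _ h]
    refine (Finset.sum_eq_zero fun s _ => ?_).symm
    by_cases h1 : i = s
    · subst h1
      simp [Ne.symm h]
    · simp [Pi.single_apply, h1]

end Pool.Agent.MR4
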