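import Pool.Agent.MR4.Defs

set_option autoImplicit false

/-!
# A rank one perturbation of a `4 × 4` matrix is diagonalisable
-/

namespace Pool.Agent.MR4

open Matrix Polynomial

namespace Cyc

/-- The coordinate space. -/
abbrev V := Fin 4 → ℂ

lemma diag_of_iSup (Y : Matrix (Fin 4) (Fin 4) ℂ)
    (hs : (⨆ μ : ℂ, Module.End.eigenspace (Matrix.toLin' Y) μ) = ⊤) :
    ∃ (P : Matrix (Fin 4) (Fin 4) ℂ) (d : Fin 4 → ℂ), IsUnit P.det ∧ Y * P = P * diagonal d := by
  classical
  let S : Set V := {x | ∃ μ : ℂ, Y *ᵥ x = μ • x}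
  have hspan : Submodule.span ℂ S = ⊤ := by
    rw [eq_top_iff, ← hs]
    refine iSup_le fun μ x hx => Submodule.subset_span ⟨μ, ?_⟩
    rw [Module.End.mem_eigenspace_iff, Matrix.toLin'_apply] at hx
    exact hx
  obtain ⟨b, hbS, hb, hli⟩ := exists_linearIndependent ℂ S
  let B : Module.Basis b ℂ V := Module.Basis.mk hli (by
    rw [Subtype.range_coe, hb, hspan])
  have hfin : Finite b := Module.Finite.finite_basis B
  have : Fintype b := Fintype.ofFinite b
  have hcard : Fintype.card b = 4 := by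
    rw [← Module.finrank_eq_card_basis B]
    simp
  let e : b ≃ Fin 4 := Fintype.equivFinOfCardEq hcard
  let B' : Module.Basis (Fin 4) ℂ V := B.reindex e
  have hB' : ∀ j, ∃ μ : ℂ, Y *ᵥ (B' j) = μ • B' j := by
    intro j
    have h1 : B' j = ((e.symm j : b) : V) := by
      simp [B', B]
    rw [h1]
    exact hbS (e.symm j).2
  choose d hd using hB'
  refine ⟨(Pi.basisFun ℂ (Fin 4)).toMatrix B', d, ?_, ?_⟩
  · have := (Pi.basisFun ℂ (Fin 4)).invertibleToMatrix B'
    exact Matrix.isUnit_det_of_invertible _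
  · ext i j
    have h1 := congrFun (hd j) i
    rw [Matrix.mul_apply, Matrix.mul_diagonal]
    simp only [Module.Basis.toMatrix_apply, Pi.basisFun_repr]
    simp only [mulVec, dotProduct, Pi.smul_apply, smul_eq_mul] at h1
    rw [h1]
    ring

lemma diag_of_sqf (Y : Matrix (Fin 4) (Fin 4) ℂ) (p : ℂ[X]) (hp : Squarefree p)
    (h : aeval (Matrix.toLin' Y) p = 0) :
    ∃ (P : Matrix (Fin 4) (Fin 4) ℂ) (d : Fin 4 → ℂ), IsUnit P.det ∧ Y * P = P * diagonal d :=
  diag_of_iSup Y (Module.End.isSemisimple_of_squarefree_aeval_eq_zero hp h).iSup_eigenspace_eq_top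

/-- Changing the image of one basis vector is a rank one perturbation. -/
lemma perturb (X : Matrix (Fin 4) (Fin 4) ℂ) (b : Module.Basis (Fin 4) ℂ V) (j : Fin 4) (y : V) :
    ∃ u v : V, (∀ i, i ≠ j → (X + vecMulVec u v) *ᵥ (b i) = X *ᵥ (b i)) ∧
      (X + vecMulVec u v) *ᵥ (b j) = y := by
  classical
  let v : V := fun i => b.coord j (Pi.single i 1)
  have hv : ∀ x : V, v ⬝ᵥ x = b.coord j x := by
    intro x
    have h1 : x = ∑ i, x i • (Pi.single i (1 : ℂ) : V) := by
      ext k
      simp [Finset.sum_apply, Pi.single_apply]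
    conv_rhs => rw [h1, map_sum]
    simp only [dotProduct, map_smul, smul_eq_mul, v]
    exact Finset.sum_congr rfl fun i _ => mul_comm _ _
  have key : ∀ x : V, (X + vecMulVec (y - X *ᵥ b j) v) *ᵥ x =
      X *ᵥ x + (b.coord j x) • (y - X *ᵥ b j) := by
    intro x
    rw [add_mulVec, ← hv x]
    congr 1
    ext i
    simp only [mulVec, dotProduct, vecMulVec_apply, Pi.smul_apply, smul_eq_mul, Finset.sum_mul]
    exact Finset.sum_congr rfl fun k _ => by ring
  refine ⟨y - X *ᵥ b j, v, fun i hi => ?_, ?_⟩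
  · rw [key]
    have : b.coord j (b i) = 0 := by
      simp [Module.Basis.coord_apply, Module.Basis.repr_self, hi]
    rw [this, zero_smul, add_zero]
  · rw [key]
    have : b.coord j (b j) = 1 := by
      simp [Module.Basis.coord_apply]
    rw [this, one_smul]
    abel

/-- Some vector has three independent iterates unless a quadratic polynomial kills the matrix. -/
lemma exists_three (f : Module.End ℂ V)
    (h : ∀ a b : ℂ, (f - algebraMap ℂ _ a) * (f - algebraMap ℂ _ b) ≠ 0) :
    ∃ e : V, LinearIndependent ℂ ![e, f e, f (f e)] := by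
  classical
  by_contra hcon
  push Not at hcon
  -- the local statement
  have hloc : ∀ e : V, ∃ a b : ℂ, ((f - algebraMap ℂ _ a) * (f - algebraMap ℂ _ b)) e = 0 := by
    intro e
    have h1 := hcon e
    rw [Fintype.not_linearIndependent_iff] at h1
    obtain ⟨c, hc, i, hi⟩ := h1
    simp only [Fin.sum_univ_three, Matrix.cons_val_zero, Matrix.cons_val_one,
      Matrix.cons_val_two, Matrix.head_cons, Matrix.tail_cons] at hc
    by_cases h2 : c 2 = 0
    · by_cases h1' : c 1 = 0
      · have h0 : c 0 ≠ 0 := by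
          fin_cases i
          · exact hi
          · exact absurd h1' hi
          · exact absurd h2 hi
        have he : e = 0 := by
          rw [h2, h1', zero_smul, zero_smul, add_zero, add_zero] at hc
          exact (smul_eq_zero.1 hc).resolve_left h0
        exact ⟨0, 0, by rw [he, map_zero]⟩
      · refine ⟨0, -(c 0) / c 1, ?_⟩
        have h3 : (f - algebraMap ℂ (Module.End ℂ V) (-(c 0) / c 1)) e = 0 := by
          rw [h2, zero_smul, add_zero] at hc
          have h4 : f e = (-(c 0) / c 1) • e := by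
            have h5 : c 1 • f e = -(c 0) • e := by
              rw [neg_smul, eq_neg_iff_add_eq_zero, add_comm]; exact hc
            have h6 := congrArg (fun z : V => (c 1)⁻¹ • z) h5
            simp only [smul_smul, inv_mul_cancel₀ h1', one_smul] at h6
            rw [h6]
            congr 1
            rw [div_eq_mul_inv, mul_comm]
          rw [LinearMap.sub_apply, Module.algebraMap_end_apply, h4, sub_self]
        rw [Module.End.mul_apply, h3, map_zero]
    · -- a quadratic equation
      obtain ⟨a, ha⟩ : ∃ a : ℂ, c 2 * (a * a) + c 1 * a + c 0 = 0 := by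
        obtain ⟨s, hs⟩ := IsAlgClosed.exists_pow_nat_eq (discrim (c 2) (c 1) (c 0)) (n := 2) (by norm_num)
        obtain ⟨a, ha⟩ := exists_quadratic_eq_zero h2 ⟨s, by rw [← hs, sq]⟩
        exact ⟨a, ha⟩
      refine ⟨a, -(c 1) / c 2 - a, ?_⟩
      have hsum : (-(c 1) / c 2 - a) + a = -(c 1) / c 2 := by ring
      have hprod : a * (-(c 1) / c 2 - a) = c 0 / c 2 := by
        field_simp
        linear_combination -ha
      have h3 : ((f - algebraMap ℂ (Module.End ℂ V) a) *
          (f - algebraMap ℂ (Module.End ℂ V) (-(c 1) / c 2 - a))) e =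
          f (f e) - (-(c 1) / c 2) • f e + (c 0 / c 2) • e := by
        rw [Module.End.mul_apply, LinearMap.sub_apply, LinearMap.sub_apply,
          Module.algebraMap_end_apply, Module.algebraMap_end_apply, map_sub, map_smul, smul_sub,
          smul_smul, hprod, ← hsum, add_smul]
        module
      rw [h3]
      have h4 : c 2 • (f (f e) - (-(c 1) / c 2) • f e + (c 0 / c 2) • e) = 0 := by
        rw [smul_add, smul_sub, smul_smul, smul_smul]
        have e1 : c 2 * (-(c 1) / c 2) = -(c 1) := by field_simp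
        have e2 : c 2 * (c 0 / c 2) = c 0 := by field_simp
        rw [e1, e2, neg_smul, sub_neg_eq_add, ← hc]
        abel
      exact (smul_eq_zero.1 h4).resolve_left h2
  -- only eigenvalues are needed
  have hinj : ∀ a : ℂ, ¬ f.HasEigenvalue a → ∀ y : V, (f - algebraMap ℂ _ a) y = 0 → y = 0 := by
    intro a ha y hy
    by_contra hy0
    apply ha
    refine Module.End.hasEigenvalue_of_hasEigenvector (x := y) ⟨?_, hy0⟩
    rw [Module.End.mem_eigenspace_iff]
    rw [LinearMap.sub_apply, Module.algebraMap_end_apply, sub_eq_zero] at hy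
    exact hy
  obtain ⟨z, hz⟩ := Module.End.exists_eigenvalue f
  have hloc2 : ∀ e : V, ∃ p : f.Eigenvalues × f.Eigenvalues,
      ((f - algebraMap ℂ _ (p.1 : ℂ)) * (f - algebraMap ℂ _ (p.2 : ℂ))) e = 0 := by
    intro e
    obtain ⟨a, b, hab⟩ := hloc e
    by_cases ha : f.HasEigenvalue a
    · by_cases hb : f.HasEigenvalue b
      · exact ⟨(⟨a, ha⟩, ⟨b, hb⟩), hab⟩
      · refine ⟨(⟨a, ha⟩, ⟨a, ha⟩), ?_⟩
        have hcomm : (f - algebraMap ℂ (Module.End ℂ V) a) * (f - algebraMap ℂ _ b) =
            (f - algebraMap ℂ _ b) * (f - algebraMap ℂ _ a) := by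
          have h1 := Algebra.commutes (A := Module.End ℂ V) b f
          have h2 := Algebra.commutes (A := Module.End ℂ V) a f
          have h3 := Algebra.commutes (A := Module.End ℂ V) a (algebraMap ℂ (Module.End ℂ V) b)
          rw [sub_mul, sub_mul, mul_sub, mul_sub, mul_sub, mul_sub, h1, h2, h3]
          abel
        rw [hcomm, Module.End.mul_apply] at hab
        have h4 := hinj b hb _ hab
        rw [Module.End.mul_apply]
        change (f - algebraMap ℂ (Module.End ℂ V) a) ((f - algebraMap ℂ (Module.End ℂ V) a) e) = 0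
        rw [h4, map_zero]
    · rw [Module.End.mul_apply] at hab
      have h4 := hinj a ha _ hab
      by_cases hb : f.HasEigenvalue b
      · refine ⟨(⟨b, hb⟩, ⟨b, hb⟩), ?_⟩
        rw [Module.End.mul_apply]
        change (f - algebraMap ℂ (Module.End ℂ V) b) ((f - algebraMap ℂ (Module.End ℂ V) b) e) = 0
        rw [h4, map_zero]
      · have h5 := hinj b hb _ h4
        exact ⟨(⟨z, hz⟩, ⟨z, hz⟩), by rw [h5, map_zero]⟩
  obtain ⟨p, hp⟩ := Subspace.exists_eq_top_of_iUnion_eq_univ (k := ℂ) (E := V)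
    (p := fun p : f.Eigenvalues × f.Eigenvalues =>
      LinearMap.ker ((f - algebraMap ℂ _ (p.1 : ℂ)) * (f - algebraMap ℂ _ (p.2 : ℂ)))) (by
        rw [Set.eq_univ_iff_forall]
        intro e
        obtain ⟨p, hp⟩ := hloc2 e
        exact Set.mem_iUnion.2 ⟨p, hp⟩)
  exact h _ _ (LinearMap.ker_eq_top.1 hp)

end Cyc

open Cyc

theorem cyc (X : Matrix (Fin 4) (Fin 4) ℂ) (h : ∀ z : ℂ, (X - z • 1) ^ 2 ≠ 0) :
    ∃ (u v : Fin 4 → ℂ) (P : Matrix (Fin 4) (Fin 4) ℂ) (d : Fin 4 → ℂ), IsUnit P.det ∧
      (X + vecMulVec u v) * P = P * diagonal d := by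
  classical
  set f : Module.End ℂ V := Matrix.toLin' X with hf
  have hfX : ∀ x, f x = X *ᵥ x := fun x => by rw [hf, Matrix.toLin'_apply]
  have hsc : ∀ z : ℂ, Matrix.toLin' (X - z • 1) = f - algebraMap ℂ _ z := by
    intro z
    ext x i
    simp [hf, Module.algebraMap_end_apply]
  by_cases hA : ∃ a b : ℂ, (f - algebraMap ℂ _ a) * (f - algebraMap ℂ _ b) = 0
  · obtain ⟨a, b, hab⟩ := hA
    have hne : a ≠ b := by
      rintro rfl
      apply h a
      have h1 : Matrix.toLin' ((X - a • 1) ^ 2) = 0 := by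
        rw [sq, Matrix.toLin'_mul, hsc]
        exact hab
      exact (LinearEquiv.map_eq_zero_iff _).1 h1
    obtain ⟨P, d, hP, hd⟩ := diag_of_sqf X ((Polynomial.X - C a) * (Polynomial.X - C b)) (by
      refine (squarefree_mul_iff).2 ⟨?_, (Polynomial.irreducible_X_sub_C a).squarefree,
        (Polynomial.irreducible_X_sub_C b).squarefree⟩
      exact (Polynomial.isCoprime_X_sub_C_of_isUnit_sub (sub_ne_zero.2 hne).isUnit).isRelPrime) (by
      rw [map_mul, map_sub, map_sub, aeval_X, aeval_C, aeval_C]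
      exact hab)
    refine ⟨0, 0, P, d, hP, ?_⟩
    have h0 : vecMulVec (0 : Fin 4 → ℂ) (0 : Fin 4 → ℂ) = 0 := by
      ext i j
      simp [vecMulVec_apply]
    rw [h0, add_zero, hd]
  push Not at hA
  obtain ⟨e, he⟩ := exists_three f hA
  have hlt : Module.finrank ℂ (Submodule.span ℂ (Set.range ![e, f e, f (f e)])) < 4 := by
    rw [finrank_span_eq_card he]
    simp
  obtain ⟨w, hw⟩ : ∃ w : V, w ∉ Submodule.span ℂ (Set.range ![e, f e, f (f e)]) := by
    by_contra hcon
    push Not at hcon
    have : Submodule.span ℂ (Set.range ![e, f e, f (f e)]) = ⊤ := by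
      rw [eq_top_iff]
      exact fun x _ => hcon x
    rw [this, finrank_top] at hlt
    simp at hlt
  have hli : LinearIndependent ℂ ![e, f e, f (f e), w] := by
    have h1 := linearIndependent_finSnoc.2 ⟨he, hw⟩
    have h2 : (Fin.snoc ![e, f e, f (f e)] w : Fin 4 → V) = ![e, f e, f (f e), w] := by
      funext i
      fin_cases i <;> rfl
    rwa [h2] at h1
  let b : Module.Basis (Fin 4) ℂ V := basisOfLinearIndependentOfCardEqFinrank hli (by simp)
  have hb : ∀ i, b i = ![e, f e, f (f e), w] i := fun i => by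
    simp [b]
  have hb0 : b 0 = e := hb 0
  have hb1 : b 1 = f e := hb 1
  have hb2 : b 2 = f (f e) := hb 2
  have hb3 : b 3 = w := hb 3
  let a : ℂ := b.coord 3 (f (b 3))
  obtain ⟨u, v, h1, h2⟩ := perturb X b 2
    ((3 * a + 6) • b 2 - (3 * a ^ 2 + 12 * a + 11) • b 1 +
      ((a + 1) * (a + 2) * (a + 3)) • b 0)
  set Y := X + vecMulVec u v with hY
  set g : Module.End ℂ V := Matrix.toLin' Y with hg
  have hgY : ∀ x, g x = Y *ᵥ x := fun x => by rw [hg, Matrix.toLin'_apply]
  have g0 : g (b 0) = b 1 := by rw [hgY, h1 0 (by decide), ← hfX, hb0, hb1]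
  have g1 : g (b 1) = b 2 := by rw [hgY, h1 1 (by decide), ← hfX, hb1, hb2]
  have g2 : g (b 2) = (3 * a + 6) • b 2 - (3 * a ^ 2 + 12 * a + 11) • b 1 +
      ((a + 1) * (a + 2) * (a + 3)) • b 0 := by
    rw [hgY, h2]
  have g3 : g (b 3) = b.coord 0 (f (b 3)) • b 0 + b.coord 1 (f (b 3)) • b 1 +
      b.coord 2 (f (b 3)) • b 2 + a • b 3 := by
    rw [hgY, h1 3 (by decide), ← hfX]
    conv_lhs => rw [← b.sum_repr (f (b 3)), Fin.sum_univ_four]
    rfl
  let q : ℂ[X] := ∏ i : Fin 3, (Polynomial.X - C (a + ((i : ℕ) : ℂ) + 1))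
  have hq0 : aeval g q (b 0) = 0 := by
    simp only [q, Fin.prod_univ_three, map_mul, map_sub, aeval_X, aeval_C, Module.End.mul_apply,
      LinearMap.sub_apply, Module.algebraMap_end_apply, map_smul, g0, g1, g2]
    simp only [Fin.val_zero, Fin.val_one, Fin.val_two, Nat.cast_zero, Nat.cast_one, Nat.cast_ofNat]
    module
  have hcomm : ∀ x, aeval g q (g x) = g (aeval g q x) := by
    intro x
    have h3 : aeval g q * g = g * aeval g q := by
      have h4 : aeval g (q * Polynomial.X) = aeval g (Polynomial.X * q) := by rw [mul_comm]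
      simpa only [map_mul, aeval_X] using h4
    exact congrArg (fun k : Module.End ℂ V => k x) h3
  have hq1 : aeval g q (b 1) = 0 := by rw [← g0, hcomm, hq0, map_zero]
  have hq2 : aeval g q (b 2) = 0 := by rw [← g1, hcomm, hq1, map_zero]
  let p : ℂ[X] := ∏ i : Fin 4, (Polynomial.X - C (a + ((i : ℕ) : ℂ)))
  have hpq : p = q * (Polynomial.X - C a) := by
    simp only [p, q, Fin.prod_univ_four, Fin.prod_univ_three]
    have e3 : ((3 : Fin 4) : ℕ) = 3 := rfl
    simp only [e3, Fin.val_zero, Fin.val_one, Fin.val_two, Nat.cast_zero, Nat.cast_one,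
      Nat.cast_ofNat, map_add, map_one, add_zero]
    have e4 : (C (3 : ℂ)) = C 2 + C 1 := by rw [← map_add]; norm_num
    have e5 : (C (2 : ℂ)) = C 1 + C 1 := by rw [← map_add]; norm_num
    rw [e4, e5, map_one]
    ring
  have hsq : Squarefree p := by
    refine (Polynomial.separable_prod_X_sub_C_iff.2 ?_).squarefree
    intro i j hij
    have : ((i : ℕ) : ℂ) = ((j : ℕ) : ℂ) := by simpa using hij
    exact Fin.ext (by exact_mod_cast this)
  have hz : aeval g p = 0 := by
    have hmul : aeval g p = (g - algebraMap ℂ _ a) * aeval g q := by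
      rw [hpq, mul_comm, map_mul, map_sub, aeval_X, aeval_C]
    have hmul2 : aeval g p = aeval g q * (g - algebraMap ℂ _ a) := by
      rw [hpq, map_mul, map_sub, aeval_X, aeval_C]
    refine b.ext fun i => ?_
    rw [LinearMap.zero_apply]
    fin_cases i
    · change aeval g p (b 0) = 0
      rw [hmul, Module.End.mul_apply, hq0, map_zero]
    · change aeval g p (b 1) = 0
      rw [hmul, Module.End.mul_apply, hq1, map_zero]
    · change aeval g p (b 2) = 0
      rw [hmul, Module.End.mul_apply, hq2, map_zero]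
    · change aeval g p (b 3) = 0
      rw [hmul2, Module.End.mul_apply, LinearMap.sub_apply, Module.algebraMap_end_apply, g3,
        add_sub_cancel_right, map_add, map_add, map_smul, map_smul, map_smul, hq0, hq1, hq2]
      simp
  obtain ⟨P, d, hP, hd⟩ := diag_of_sqf Y p hsq hz
  exact ⟨u, v, P, d, hP, hd⟩

end Pool.Agent.MR4
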