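import Mathlib

set_option autoImplicit false

/-!
# Small tensors given by four slices of size four

`RK r M` says that the `4 × 4 × 4` array with slices `M 0, ..., M 3` is a sum of `r` decomposable
arrays.
-/

namespace Pool.Agent.MR4

open Matrix

/-- Four slices, each a complex `4 × 4` matrix. -/
abbrev Sl := Fin 4 → Matrix (Fin 4) (Fin 4) ℂ

/-- The array with slices `M k` is a sum of `r` decomposable arrays. -/
def RK (r : ℕ) (M : Sl) : Prop :=
  ∃ a b c : Fin r → Fin 4 → ℂ, ∀ k i j, M k i j = ∑ s, a s k * b s i * c s j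

/-- The slices of the multiplication of the exterior algebra of a plane. -/
def ext : Sl :=
  ![!![1, 0, 0, 0; 0, 0, 0, 0; 0, 0, 0, 0; 0, 0, 0, 0],
    !![0, 1, 0, 0; 1, 0, 0, 0; 0, 0, 0, 0; 0, 0, 0, 0],
    !![0, 0, 1, 0; 0, 0, 0, 0; 1, 0, 0, 0; 0, 0, 0, 0],
    !![0, 0, 0, 1; 0, 0, 1, 0; 0, -1, 0, 0; 1, 0, 0, 0]]

end Pool.Agent.MR4
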