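import Pool.Agent.MR4.Cyc

set_option autoImplicit false

namespace Pool.Agent.MR4

open Matrix Polynomial

/-- A matrix whose characteristic polynomial is coprime to its derivative is diagonalisable. -/
lemma diag_of_coprime (Z : Matrix (Fin 4) (Fin 4) ℂ)
    (h : IsCoprime Z.charpoly (derivative Z.charpoly)) :
    ∃ (P : Matrix (Fin 4) (Fin 4) ℂ) (d : Fin 4 → ℂ), IsUnit P.det ∧ Z * P = P * diagonal d := by
  refine Cyc.diag_of_sqf Z Z.charpoly (Polynomial.Separable.squarefree h) ?_
  have := Matrix.aeval_self_charpoly Z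
  have e : aeval (Matrix.toLin' Z) Z.charpoly = Matrix.toLin' (aeval Z Z.charpoly) := by
    have := Polynomial.aeval_algHom_apply (Matrix.toLinAlgEquiv' (R := ℂ) (n := Fin 4)).toAlgHom Z
      Z.charpoly
    have h2 : (aeval (Matrix.toLin' Z)) Z.charpoly = (aeval (toLinAlgEquiv' Z)) Z.charpoly := rfl
    rw [h2]
    exact this
  rw [e, this, map_zero]

lemma coprime_diag : IsCoprime (diagonal ![(1 : ℂ), 2, 3, 4]).charpoly
    (derivative (diagonal ![(1 : ℂ), 2, 3, 4]).charpoly) := by
  have hs : ((diagonal ![(1 : ℂ), 2, 3, 4]).charpoly).Separable := by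
    have : (diagonal ![(1 : ℂ), 2, 3, 4]).charpoly =
        ∏ i : Fin 4, (X - C ((![(1 : ℂ), 2, 3, 4] : Fin 4 → ℂ) i)) := by
      rw [Matrix.charpoly, Matrix.charmatrix]
      have h1 : (Matrix.scalar (Fin 4)) (X : ℂ[X]) - C.mapMatrix (diagonal ![(1 : ℂ), 2, 3, 4]) =
          diagonal fun i => X - C ((![(1 : ℂ), 2, 3, 4] : Fin 4 → ℂ) i) := by
        ext1 i j
        by_cases hij : i = j
        · subst hij; simp
        · simp [hij]
      rw [h1, Matrix.det_diagonal]
    rw [this]
    rw [Polynomial.separable_prod_X_sub_C_iff]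
    intro i j hij
    fin_cases i <;> fin_cases j <;> simp at hij ⊢
  exact hs

theorem kpert (X Y : Matrix (Fin 4) (Fin 4) ℂ) :
    ∃ (D D' : Fin 4 → ℂ) (P Q : Matrix (Fin 4) (Fin 4) ℂ) (d d' : Fin 4 → ℂ),
      X + diagonal D = P * diagonal d * Q ∧ Y + diagonal D' = P * diagonal d' * Q := by
  classical
  set Δ : Matrix (Fin 4) (Fin 4) ℂ := diagonal ![(1 : ℂ), 2, 3, 4] with hΔ
  set A : Matrix (Fin 4) (Fin 4) ℂ[X] := 1 + (Polynomial.X : ℂ[X]) • C.mapMatrix X with hA
  set B : Matrix (Fin 4) (Fin 4) ℂ[X] := C.mapMatrix Δ + (Polynomial.X : ℂ[X]) • C.mapMatrix Y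
    with hB
  set Z : Matrix (Fin 4) (Fin 4) ℂ[X] := A.adjugate * B with hZ
  set r : ℂ[X] := resultant Z.charpoly (derivative Z.charpoly) with hr
  have hev : ∀ t : ℂ, (evalRingHom t).mapMatrix A = 1 + t • X := by
    intro t
    ext i j
    by_cases hij : i = j
    · subst hij; simp [hA]; ring
    · simp [hA, hij]; ring
  have hevB : ∀ t : ℂ, (evalRingHom t).mapMatrix B = Δ + t • Y := by
    intro t
    ext i j
    simp [hB]; ring
  have hevZ : ∀ t : ℂ, (evalRingHom t).mapMatrix Z = (1 + t • X).adjugate * (Δ + t • Y) := by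
    intro t
    rw [hZ, map_mul, RingHom.map_adjugate, hev, hevB]
  have hchar : ∀ t : ℂ, ((1 + t • X).adjugate * (Δ + t • Y)).charpoly =
      Z.charpoly.map (evalRingHom t) := by
    intro t
    rw [← hevZ, RingHom.mapMatrix_apply, Matrix.charpoly_map]
  have hdeg : Z.charpoly.natDegree = 4 := by
    rw [Matrix.charpoly_natDegree_eq_dim]; rfl
  have hres : ∀ t : ℂ, resultant ((1 + t • X).adjugate * (Δ + t • Y)).charpoly
      (derivative ((1 + t • X).adjugate * (Δ + t • Y)).charpoly) = r.eval t := by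
    intro t
    have hd1 : ((1 + t • X).adjugate * (Δ + t • Y)).charpoly.natDegree = 4 := by
      rw [Matrix.charpoly_natDegree_eq_dim]; rfl
    have hd2 : (derivative ((1 + t • X).adjugate * (Δ + t • Y)).charpoly).natDegree = 3 := by
      rw [Polynomial.natDegree_derivative, hd1]
    have hd3 : (derivative Z.charpoly).natDegree = 3 := by
      rw [Polynomial.natDegree_derivative, hdeg]
    rw [hd1, hd2, hr, hdeg, hd3, hchar, Polynomial.derivative_map, resultant_map_map]
    rfl
  have hr0 : r.eval 0 ≠ 0 := by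
    rw [← hres 0]
    have : (1 + (0 : ℂ) • X).adjugate * (Δ + (0 : ℂ) • Y) = Δ := by simp
    rw [this]
    exact ((isUnit_resultant_iff_isCoprime (Matrix.charpoly_monic Δ)).mpr coprime_diag).ne_zero
  have hr' : r ≠ 0 := by
    intro h0
    rw [h0] at hr0
    simp at hr0
  have hdA : A.det ≠ 0 := by
    intro h0
    have h1 : (evalRingHom (0 : ℂ)) A.det = 1 := by
      rw [RingHom.map_det, hev]; simp
    rw [h0] at h1
    simp at h1
  have hne : r * A.det * Polynomial.X ≠ 0 := mul_ne_zero (mul_ne_zero hr' hdA) Polynomial.X_ne_zero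
  obtain ⟨t, ht⟩ : ∃ t : ℂ, (r * A.det * Polynomial.X).eval t ≠ 0 := by
    by_contra hcon
    push Not at hcon
    exact hne (Polynomial.funext fun t => by rw [hcon t, Polynomial.eval_zero])
  rw [Polynomial.eval_mul, Polynomial.eval_mul, Polynomial.eval_X] at ht
  have ht0 : t ≠ 0 := right_ne_zero_of_mul ht
  have htr : r.eval t ≠ 0 := left_ne_zero_of_mul (left_ne_zero_of_mul ht)
  have htd : (1 + t • X).det ≠ 0 := by
    have h1 : (evalRingHom t) A.det = (1 + t • X).det := by
      rw [RingHom.map_det, hev]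
    rw [← h1]
    exact right_ne_zero_of_mul (left_ne_zero_of_mul ht)
  have hcop : IsCoprime ((1 + t • X).adjugate * (Δ + t • Y)).charpoly
      (derivative ((1 + t • X).adjugate * (Δ + t • Y)).charpoly) := by
    rw [← isUnit_resultant_iff_isCoprime (Matrix.charpoly_monic _), hres t]
    exact isUnit_iff_ne_zero.mpr htr
  obtain ⟨S, e, hS, hSe⟩ := diag_of_coprime _ hcop
  set W := 1 + t • X with hW
  have hWu : IsUnit W.det := isUnit_iff_ne_zero.mpr htd
  -- `W * (W.adjugate * B) = det W • B`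
  have h1 : W * (W.adjugate * (Δ + t • Y)) = W.det • (Δ + t • Y) := by
    rw [← Matrix.mul_assoc, Matrix.mul_adjugate, Matrix.smul_mul, Matrix.one_mul]
  have h2 : W.adjugate * (Δ + t • Y) = S * diagonal e * S⁻¹ := by
    rw [← hSe, Matrix.mul_nonsing_inv_cancel_right _ _ hS]
  refine ⟨fun _ => t⁻¹, fun i => t⁻¹ * (![(1 : ℂ), 2, 3, 4] : Fin 4 → ℂ) i, t⁻¹ • (W * S), S⁻¹,
    1, fun i => (W.det)⁻¹ * e i, ?_, ?_⟩
  · have h3 : t⁻¹ • (W * S) * diagonal 1 * S⁻¹ = t⁻¹ • W := by
      have : (diagonal (1 : Fin 4 → ℂ)) = 1 := diagonal_one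
      rw [this, Matrix.mul_one, Matrix.smul_mul, Matrix.mul_nonsing_inv_cancel_right _ _ hS]
    rw [h3, hW, smul_add, smul_smul, inv_mul_cancel₀ ht0, one_smul, add_comm]
    congr 1
    ext i j
    by_cases hij : i = j
    · subst hij; simp
    · simp [hij]
  · have h3 : t⁻¹ • (W * S) * diagonal (fun i => (W.det)⁻¹ * e i) * S⁻¹ =
        t⁻¹ • (W.det)⁻¹ • (W * (S * diagonal e * S⁻¹)) := by
      have : diagonal (fun i => (W.det)⁻¹ * e i) = (W.det)⁻¹ • diagonal e := by
        ext i j
        by_cases hij : i = j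
        · subst hij; simp
        · simp [hij]
      rw [this]
      simp only [Matrix.smul_mul, Matrix.mul_smul, Matrix.mul_assoc]
      rw [smul_comm]
    rw [h3, ← h2, h1, smul_smul, smul_smul, mul_assoc, inv_mul_cancel₀ htd, mul_one, smul_add,
      smul_smul, inv_mul_cancel₀ ht0, one_smul, add_comm]
    congr 1
    rw [hΔ]
    ext i j
    by_cases hij : i = j
    · subst hij; simp
    · simp [hij]

end Pool.Agent.MR4
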