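import Pool.Agent.MR4.Basic
import Pool.Agent.MR4.Pert

set_option autoImplicit false

namespace Pool.Agent.MR4

open Matrix

/-- If the first two slices are diagonal, the rank is at most eight. -/
lemma RK8_of_diag {M : Sl} (d0 d1 : Fin 4 → ℂ) (h0 : M 0 = diagonal d0)
    (h1 : M 1 = diagonal d1) : RK 8 M := by
  obtain ⟨D, D', P, Q, d, d', e2, e3⟩ := kpert (M 2) (M 3)
  have hA := RK_diag 1 1 ![d0, d1, -D, -D']
  have hB := RK_diag P Q ![0, 0, d, d']
  have := hA.add hB
  have e : (fun k => 1 * diagonal ((![d0, d1, -D, -D'] : Fin 4 → Fin 4 → ℂ) k) * 1 +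
      P * diagonal ((![0, 0, d, d'] : Fin 4 → Fin 4 → ℂ) k) * Q) = M := by
    funext k
    fin_cases k
    · simp [h0]
    · simp [h1]
    · simp only [Fin.reduceFinMk, cons_val, ← e2, Matrix.one_mul, Matrix.mul_one]
      have : diagonal (-D) = -diagonal D := (diagonal_neg D).symm
      rw [this]
      abel
    · simp only [Fin.reduceFinMk, cons_val, ← e3, Matrix.one_mul, Matrix.mul_one]
      have : diagonal (-D') = -diagonal D' := (diagonal_neg D').symm
      rw [this]
      abel
  rwa [e] at this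

/-- If the first two slices are simultaneously equivalent to diagonal matrices, the rank is at
most eight. -/
lemma RK8_of_equiv {M : Sl} (P Q : Matrix (Fin 4) (Fin 4) ℂ) (hP : IsUnit P.det)
    (hQ : IsUnit Q.det) (d0 d1 : Fin 4 → ℂ) (h0 : P * M 0 * Q = diagonal d0)
    (h1 : P * M 1 * Q = diagonal d1) : RK 8 M :=
  RK.of_mul P Q hP hQ (RK8_of_diag d0 d1 h0 h1)

/-- Four distinct eigenvalues. -/
lemma diag_of_four (X : Matrix (Fin 4) (Fin 4) ℂ) (t : Fin 4 → ℂ) (ht : Function.Injective t)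
    (h : ∀ i, (X - t i • (1 : Matrix (Fin 4) (Fin 4) ℂ)).det = 0) :
    ∃ P : Matrix (Fin 4) (Fin 4) ℂ, IsUnit P.det ∧ X * P = P * diagonal t := by
  have h1 : ∀ i, ∃ v : Fin 4 → ℂ, v ≠ 0 ∧ X *ᵥ v = t i • v := by
    intro i
    obtain ⟨v, hv, e⟩ := Matrix.exists_mulVec_eq_zero_iff.mpr (h i)
    refine ⟨v, hv, ?_⟩
    rw [Matrix.sub_mulVec, Matrix.smul_mulVec, Matrix.one_mulVec, sub_eq_zero] at e
    exact e
  choose v hv e using h1
  have hlin : LinearIndependent ℂ v := by
    refine Module.End.eigenvectors_linearIndependent' (Matrix.toLin' X) t ht v fun i => ?_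
    refine ⟨?_, hv i⟩
    rw [Module.End.mem_eigenspace_iff, Matrix.toLin'_apply, e i]
  refine ⟨Matrix.of fun i j => v j i, ?_, ?_⟩
  · rw [← Matrix.det_transpose]
    have : (Matrix.of fun i j => v j i)ᵀ = Matrix.of v := by
      ext i j; rfl
    rw [this]
    have h2 := Matrix.linearIndependent_rows_iff_isUnit (A := Matrix.of v)
    exact (Matrix.isUnit_iff_isUnit_det _).mp (h2.mp hlin)
  · ext i j
    have := congrFun (e j) i
    rw [Matrix.mul_diagonal, Matrix.mul_apply]
    simp only [Matrix.of_apply]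
    rw [mulVec, dotProduct] at this
    rw [this]
    simp [mul_comm]

end Pool.Agent.MR4
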