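import Pool.Agent.MR4.Defs

set_option autoImplicit false

/-!
# The multiplication of the exterior algebra of a plane is not a sum of seven decomposable arrays

One row and one column substitution reduce seven terms to five terms for an array of three by three
matrices; a change of basis brings its slices to the normal form `F k`. A hyperplane argument in
the five coefficients and the determinant of a difference of two matrices of rank one finish the
proof.
-/

namespace Pool.Agent.MR4

open Matrix Module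

/-- The slices of the normal form. -/
def F : Fin 4 → Matrix (Fin 3) (Fin 3) ℂ :=
  ![!![1, 0, 0; 0, 0, 0; 0, 0, 0],
    !![0, 1, 0; 1, 0, 0; 0, 0, 0],
    !![0, 0, 1; 0, 0, 0; 1, 0, 0],
    !![0, 0, 0; 0, 0, 1; 0, -1, 0]]

/-- The general element of the space spanned by the slices. -/
theorem F_comb (μ : Fin 4 → ℂ) (i j : Fin 3) :
    ∑ k, μ k * F k i j = !![μ 0, μ 1, μ 2; μ 1, 0, μ 3; μ 2, -μ 3, 0] i j := by
  fin_cases i <;> fin_cases j <;> simp [F, Fin.sum_univ_four]

/-- Two equivalence relations covering all pairs: one of them is total. -/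
theorem two_rel {ι : Type*} (I : ι → Prop) (P S : ι → ℂ)
    (h : ∀ i j, I i → I j → P i = P j ∨ S i = S j) :
    (∀ i j, I i → I j → P i = P j) ∨ (∀ i j, I i → I j → S i = S j) := by
  by_contra hcon
  push Not at hcon
  obtain ⟨⟨i, j, hi, hj, hP⟩, ⟨k, l, hk, hl, hS⟩⟩ := hcon
  have h1 : S i = S j := (h i j hi hj).resolve_left hP
  have key : ∀ m, I m → S m = S i := by
    intro m hm
    by_contra hne
    have h2 : P m = P i := (h m i hm hi).resolve_right hne
    have h3 : P m = P j := (h m j hm hj).resolve_right (by rw [← h1]; exact hne)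
    exact hP (h2.symm.trans h3)
  exact hS ((key k hk).trans (key l hl).symm)

/-- The normal form is not a sum of five decomposable arrays. -/
theorem core {ι : Type} [Fintype ι] [DecidableEq ι] (hι : Fintype.card ι = 5)
    (a : ι → Fin 4 → ℂ) (x y : ι → Fin 3 → ℂ)
    (h : ∀ k i j, F k i j = ∑ s, a s k * x s i * y s j) : False := by
  -- a vector orthogonal to the rows
  let Φ : (ι → ℂ) →ₗ[ℂ] (Fin 4 → ℂ) := Matrix.mulVecLin (Matrix.of fun k s => a s k)
  have hker : LinearMap.ker Φ ≠ ⊥ := by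
    apply LinearMap.ker_ne_bot_of_finrank_lt
    simp [hι]
  obtain ⟨c, hcker, hc0⟩ := Submodule.exists_mem_ne_zero_of_ne_bot hker
  have hc : ∀ k, ∑ s, a s k * c s = 0 := by
    intro k
    have := congrFun (LinearMap.mem_ker.1 hcker) k
    simpa [Φ, Matrix.mulVec, dotProduct] using this
  -- the combination formula
  have hcomb : ∀ μ : Fin 4 → ℂ, ∀ i j,
      ∑ k, μ k * F k i j = ∑ s, (∑ k, μ k * a s k) * x s i * y s j := by
    intro μ i j
    simp_rw [h, Finset.mul_sum, Finset.sum_mul]
    rw [Finset.sum_comm]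
    refine Finset.sum_congr rfl fun s _ => Finset.sum_congr rfl fun k _ => by ring
  let v : Fin 4 → (ι → ℂ) := fun k s => a s k
  have hv : LinearIndependent ℂ v := by
    rw [Fintype.linearIndependent_iff]
    intro g hg
    have hg' : ∀ s, ∑ k, g k * a s k = 0 := by
      intro s
      have := congrFun hg s
      simpa [v, Finset.sum_apply] using this
    have hz : ∀ i j, ∑ k, g k * F k i j = 0 := by
      intro i j
      rw [hcomb]
      simp [hg']
    have e0 := hz 0 0
    have e1 := hz 0 1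
    have e2 := hz 0 2
    have e3 := hz 1 2
    rw [F_comb] at e0 e1 e2 e3
    intro k
    fin_cases k
    · simpa using e0
    · simpa using e1
    · simpa using e2
    · simpa using e3
  let ψ : (ι → ℂ) →ₗ[ℂ] ℂ :=
    { toFun := fun l => ∑ s, l s * c s
      map_add' := by intro l m; simp [add_mul, Finset.sum_add_distrib]
      map_smul' := by intro r l; simp [Finset.mul_sum, mul_assoc] }
  have hle : Submodule.span ℂ (Set.range v) ≤ LinearMap.ker ψ := by
    rw [Submodule.span_le]
    rintro _ ⟨k, rfl⟩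
    exact hc k
  have hnt : LinearMap.ker ψ ≠ ⊤ := by
    intro htop
    obtain ⟨s, hs⟩ : ∃ s, c s ≠ 0 := by
      by_contra hcon
      push Not at hcon
      exact hc0 (funext hcon)
    have hm : Pi.single s (1 : ℂ) ∈ LinearMap.ker ψ := by rw [htop]; trivial
    have : ∑ t, (Pi.single s (1 : ℂ) : ι → ℂ) t * c t = 0 := hm
    rw [Finset.sum_eq_single s] at this
    · simp at this; exact hs this
    · intro t _ hts; simp [hts]
    · simp
  have heq : Submodule.span ℂ (Set.range v) = LinearMap.ker ψ := by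
    apply Submodule.eq_of_le_of_finrank_le hle
    have h1 : finrank ℂ (LinearMap.ker ψ) < finrank ℂ (ι → ℂ) :=
      Submodule.finrank_lt hnt
    rw [Module.finrank_fintype_fun_eq_card, hι] at h1
    rw [finrank_span_eq_card hv]
    simp
    omega
  -- elements of the hyperplane give elements of the space
  have hmem : ∀ l : ι → ℂ, ∑ s, l s * c s = 0 →
      ∃ μ : Fin 4 → ℂ, ∀ i j, ∑ s, l s * x s i * y s j
        = !![μ 0, μ 1, μ 2; μ 1, 0, μ 3; μ 2, -μ 3, 0] i j := by
    intro l hl
    have hl' : l ∈ Submodule.span ℂ (Set.range v) := by rw [heq]; exact hl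
    obtain ⟨μ, hμ⟩ := (Submodule.mem_span_range_iff_exists_fun ℂ).1 hl'
    refine ⟨μ, fun i j => ?_⟩
    rw [← F_comb, hcomb]
    refine Finset.sum_congr rfl fun s _ => ?_
    have : l s = ∑ k, μ k * a s k := by
      rw [← hμ]; simp [v, Finset.sum_apply]
    rw [this]
  -- zero coordinates of `c`
  have hzero : ∀ s, c s = 0 → ∀ i j : Fin 3, (i, j) ≠ (0, 0) → x s i * y s j = 0 := by
    intro s hs
    obtain ⟨μ, hμ⟩ := hmem (Pi.single s 1) (by
      rw [Finset.sum_eq_single s]
      · simp [hs]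
      · intro t _ hts; simp [hts]
      · simp)
    have hμ' : ∀ i j, x s i * y s j = !![μ 0, μ 1, μ 2; μ 1, 0, μ 3; μ 2, -μ 3, 0] i j := by
      intro i j
      rw [← hμ, Finset.sum_eq_single s]
      · simp
      · intro t _ hts; simp [hts]
      · simp
    have e01 : x s 0 * y s 1 = μ 1 := by simpa using hμ' 0 1
    have e10 : x s 1 * y s 0 = μ 1 := by simpa using hμ' 1 0
    have e02 : x s 0 * y s 2 = μ 2 := by simpa using hμ' 0 2
    have e20 : x s 2 * y s 0 = μ 2 := by simpa using hμ' 2 0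
    have e11 : x s 1 * y s 1 = 0 := by simpa using hμ' 1 1
    have e22 : x s 2 * y s 2 = 0 := by simpa using hμ' 2 2
    have e12 : x s 1 * y s 2 = μ 3 := by simpa using hμ' 1 2
    have e21 : x s 2 * y s 1 = -μ 3 := by simpa using hμ' 2 1
    have m1 : μ 1 = 0 := by
      have : μ 1 ^ 2 = 0 := by
        linear_combination (-μ 1 : ℂ) * e01 - x s 0 * y s 1 * e10 + x s 0 * y s 0 * e11
      exact pow_eq_zero_iff (two_ne_zero) |>.1 this
    have m2 : μ 2 = 0 := by
      have : μ 2 ^ 2 = 0 := by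
        linear_combination (-μ 2 : ℂ) * e02 - x s 0 * y s 2 * e20 + x s 0 * y s 0 * e22
      exact pow_eq_zero_iff (two_ne_zero) |>.1 this
    have m3 : μ 3 = 0 := by
      have : μ 3 ^ 2 = 0 := by
        linear_combination (-μ 3 : ℂ) * e12 + x s 1 * y s 2 * e21 - x s 1 * y s 1 * e22
      exact pow_eq_zero_iff (two_ne_zero) |>.1 this
    intro i j hij
    rw [hμ']
    fin_cases i <;> fin_cases j <;> simp_all
  -- pairs
  have hpair : ∀ i j, c i ≠ 0 → c j ≠ 0 → ∃ μ : Fin 4 → ℂ, ∀ p q,
      x i p * y i q / c i - x j p * y j q / c j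
        = !![μ 0, μ 1, μ 2; μ 1, 0, μ 3; μ 2, -μ 3, 0] p q := by
    intro i j hi hj
    obtain ⟨μ, hμ⟩ := hmem (Pi.single i (1 / c i) - Pi.single j (1 / c j)) (by
      simp only [Pi.sub_apply, sub_mul, Finset.sum_sub_distrib]
      rw [Finset.sum_eq_single i, Finset.sum_eq_single j]
      · simp [hi, hj]
      · intro t _ hts; simp [hts]
      · simp
      · intro t _ hts; simp [hts]
      · simp)
    refine ⟨μ, fun p q => ?_⟩
    rw [← hμ]
    simp only [Pi.sub_apply, sub_mul, Finset.sum_sub_distrib]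
    rw [Finset.sum_eq_single i, Finset.sum_eq_single j]
    · simp only [Pi.single_eq_same]; ring
    · intro t _ hts; simp [hts]
    · simp
    · intro t _ hts; simp [hts]
    · simp
  have hdich := two_rel (fun i => c i ≠ 0) (fun i => x i 0 * y i 0 / c i)
    (fun i => x i 1 * y i 2 / c i) (by
      intro i j hi hj
      obtain ⟨μ, hμ⟩ := hpair i j hi hj
      have e00 := hμ 0 0
      have e01 := hμ 0 1
      have e02 := hμ 0 2
      have e10 := hμ 1 0
      have e11 := hμ 1 1
      have e12 := hμ 1 2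
      have e20 := hμ 2 0
      have e21 := hμ 2 1
      have e22 := hμ 2 2
      simp at e00 e01 e02 e10 e11 e12 e20 e21 e22
      have hdet : μ 0 * μ 3 ^ 2 = 0 := by
        have : (x i 0 * y i 0 / c i - x j 0 * y j 0 / c j) *
            ((x i 1 * y i 1 / c i - x j 1 * y j 1 / c j) *
              (x i 2 * y i 2 / c i - x j 2 * y j 2 / c j) -
             (x i 1 * y i 2 / c i - x j 1 * y j 2 / c j) *
              (x i 2 * y i 1 / c i - x j 2 * y j 1 / c j)) -
            (x i 0 * y i 1 / c i - x j 0 * y j 1 / c j) *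
            ((x i 1 * y i 0 / c i - x j 1 * y j 0 / c j) *
              (x i 2 * y i 2 / c i - x j 2 * y j 2 / c j) -
             (x i 1 * y i 2 / c i - x j 1 * y j 2 / c j) *
              (x i 2 * y i 0 / c i - x j 2 * y j 0 / c j)) +
            (x i 0 * y i 2 / c i - x j 0 * y j 2 / c j) *
            ((x i 1 * y i 0 / c i - x j 1 * y j 0 / c j) *
              (x i 2 * y i 1 / c i - x j 2 * y j 1 / c j) -
             (x i 1 * y i 1 / c i - x j 1 * y j 1 / c j) *
              (x i 2 * y i 0 / c i - x j 2 * y j 0 / c j)) = 0 := by ring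
        rw [e00, e01, e02, e10, e11, e12, e20, e21, e22] at this
        linear_combination this
      rcases mul_eq_zero.1 hdet with h0 | h3
      · left; rw [h0] at e00; exact sub_eq_zero.1 e00
      · right
        have h3' : μ 3 = 0 := pow_eq_zero_iff (two_ne_zero) |>.1 h3
        rw [h3'] at e12; exact sub_eq_zero.1 e12)
  obtain ⟨s₁, hs₁⟩ : ∃ s, c s ≠ 0 := by
    by_contra hcon
    push Not at hcon
    exact hc0 (funext hcon)
  rcases hdich with hP | hS
  · -- the corner entry is proportional to `c`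
    obtain ⟨P, hPdef⟩ : ∃ P, P = x s₁ 0 * y s₁ 0 / c s₁ := ⟨_, rfl⟩
    obtain ⟨d1, hd1⟩ : ∃ d, d = x s₁ 0 * y s₁ 1 / c s₁ - x s₁ 1 * y s₁ 0 / c s₁ := ⟨_, rfl⟩
    obtain ⟨d2, hd2⟩ : ∃ d, d = x s₁ 0 * y s₁ 2 / c s₁ - x s₁ 2 * y s₁ 0 / c s₁ := ⟨_, rfl⟩
    have hinv : ∀ s, c s ≠ 0 → x s 0 * y s 0 / c s = P ∧
        x s 0 * y s 1 / c s - x s 1 * y s 0 / c s = d1 ∧
        x s 0 * y s 2 / c s - x s 2 * y s 0 / c s = d2 := by
      intro s hs
      obtain ⟨μ, hμ⟩ := hpair s s₁ hs hs₁
      have e01 := hμ 0 1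
      have e02 := hμ 0 2
      have e10 := hμ 1 0
      have e20 := hμ 2 0
      simp at e01 e02 e10 e20
      refine ⟨by rw [hPdef]; exact hP s s₁ hs hs₁, ?_, ?_⟩
      · rw [hd1]; linear_combination e01 - e10
      · rw [hd2]; linear_combination e02 - e20
    have hlin : ∀ s, 2 * P * (x s 1 * y s 2 - x s 2 * y s 1)
        = d2 * (x s 0 * y s 1 + x s 1 * y s 0) - d1 * (x s 0 * y s 2 + x s 2 * y s 0) := by
      intro s
      by_cases hs : c s = 0
      · rw [hzero s hs 1 2 (by decide), hzero s hs 2 1 (by decide), hzero s hs 0 1 (by decide),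
          hzero s hs 1 0 (by decide), hzero s hs 0 2 (by decide), hzero s hs 2 0 (by decide)]
        ring
      · obtain ⟨h1, h2, h3⟩ := hinv s hs
        rw [← h1, ← h2, ← h3]
        field_simp
        ring
    have hglob : ∀ k, 2 * P * (F k 1 2 - F k 2 1)
        = d2 * (F k 0 1 + F k 1 0) - d1 * (F k 0 2 + F k 2 0) := by
      intro k
      rw [h, h, h, h, h, h]
      simp only [← Finset.sum_sub_distrib, ← Finset.sum_add_distrib, Finset.mul_sum]
      refine Finset.sum_congr rfl fun s _ => ?_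
      linear_combination a s k * hlin s
    have g1 := hglob 1
    have g2 := hglob 2
    have g3 := hglob 3
    have hd2' : d2 = 0 := by
      simpa [F] using g1
    have hd1' : d1 = 0 := by
      simpa [F] using g2
    have hP' : P = 0 := by
      have hne : (1 : ℂ) + 1 ≠ 0 := by norm_num
      simpa [F, hne] using g3
    have h01 : ∀ s, x s 0 * y s 1 = 0 := by
      intro s
      by_cases hs : c s = 0
      · exact hzero s hs 0 1 (by decide)
      · obtain ⟨h1, h2, h3⟩ := hinv s hs
        rw [hP'] at h1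
        rw [hd1'] at h2
        have h1' : x s 0 * y s 0 = 0 := by
          rcases div_eq_zero_iff.1 h1 with h | h
          · exact h
          · exact absurd h hs
        have h2' : x s 0 * y s 1 = x s 1 * y s 0 := by
          field_simp at h2
          linear_combination h2
        have : (x s 0 * y s 1) ^ 2 = 0 := by
          linear_combination x s 0 * y s 1 * h2' + x s 1 * y s 1 * h1'
        exact pow_eq_zero_iff (two_ne_zero) |>.1 this
    have := h 1 0 1
    simp [F, mul_assoc, h01] at this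
  · obtain ⟨S, hSdef⟩ : ∃ S, S = x s₁ 1 * y s₁ 2 / c s₁ := ⟨_, rfl⟩
    have h12 : ∀ s, x s 1 * y s 2 = c s * S := by
      intro s
      by_cases hs : c s = 0
      · rw [hs, hzero s hs 1 2 (by decide)]; ring
      · have := hS s s₁ hs hs₁
        rw [← hSdef] at this
        field_simp at this
        linear_combination this
    have := h 3 1 2
    simp only [mul_assoc, h12] at this
    have h2 : ∑ s, a s 3 * (c s * S) = 0 := by
      rw [show ∑ s, a s 3 * (c s * S) = (∑ s, a s 3 * c s) * S by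
        rw [Finset.sum_mul]; exact Finset.sum_congr rfl fun s _ => by ring]
      rw [hc]; ring
    rw [h2] at this
    simp [F] at this

/-- The multiplication of the exterior algebra of a plane is not a sum of seven decomposable
arrays. -/
theorem lower : ¬ RK 7 ext := by
  rintro ⟨a, b, c, h⟩
  -- a term with nonzero last row coefficient
  obtain ⟨s₀, hs₀⟩ : ∃ s, b s 3 ≠ 0 := by
    by_contra hcon
    push Not at hcon
    have := h 3 3 0
    simp [ext, hcon] at this
  obtain ⟨β, hβ⟩ : ∃ β : Fin 3 → ℂ, β = fun i => b s₀ i.castSucc / b s₀ 3 := ⟨_, rfl⟩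
  have hβ' : ∀ i : Fin 3, b s₀ i.castSucc = β i * b s₀ 3 := by
    intro i; rw [hβ]; field_simp
  -- a second term with nonzero last column coefficient
  obtain ⟨s₁, hs₁, hne⟩ : ∃ s, c s 3 ≠ 0 ∧ s ≠ s₀ := by
    by_contra hcon
    push Not at hcon
    have e1 := h 3 0 3
    have e2 := h 3 3 3
    have : (1 : ℂ) = ∑ s, a s 3 * (b s 0 - β 0 * b s 3) * c s 3 := by
      have : ∑ s, a s 3 * (b s 0 - β 0 * b s 3) * c s 3
          = ∑ s, a s 3 * b s 0 * c s 3 - β 0 * ∑ s, a s 3 * b s 3 * c s 3 := by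
        rw [Finset.mul_sum, ← Finset.sum_sub_distrib]
        exact Finset.sum_congr rfl fun s _ => by ring
      rw [this, ← e1, ← e2]
      simp [ext]
    rw [Finset.sum_eq_zero] at this
    · norm_num at this
    · intro s _
      by_cases hc : c s 3 = 0
      · rw [hc]; ring
      · rw [hcon s hc]
        have := hβ' 0
        simp only [Fin.castSucc_zero] at this
        rw [this]; ring
  obtain ⟨γ, hγ⟩ : ∃ γ : Fin 3 → ℂ, γ = fun i => c s₁ i.castSucc / c s₁ 3 := ⟨_, rfl⟩
  have hγ' : ∀ i : Fin 3, c s₁ i.castSucc = γ i * c s₁ 3 := by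
    intro i; rw [hγ]; field_simp
  have b0 : b s₀ 0 = β 0 * b s₀ 3 := hβ' 0
  have b1 : b s₀ 1 = β 1 * b s₀ 3 := hβ' 1
  have b2 : b s₀ 2 = β 2 * b s₀ 3 := hβ' 2
  have c0 : c s₁ 0 = γ 0 * c s₁ 3 := hγ' 0
  have c1 : c s₁ 1 = γ 1 * c s₁ 3 := hγ' 1
  have c2 : c s₁ 2 = γ 2 * c s₁ 3 := hγ' 2
  -- the new coefficients
  let U : Fin 4 → Fin 4 → ℂ := ![![1, 0, 0, 0], ![β 2 - γ 2, 1, 0, 0], ![γ 1 - β 1, 0, 1, 0],
    ![γ 2 * β 1 - γ 1 * β 2 + β 0 + γ 0, 0, 0, 1]]
  let V : Fin 3 → Fin 4 → ℂ := ![![1, γ 2, -γ 1, -β 0 - γ 2 * β 1 + γ 1 * β 2],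
    ![0, 1, 0, -β 1], ![0, 0, 1, -β 2]]
  let W : Fin 3 → Fin 4 → ℂ := ![![1, -β 2, β 1, -γ 0 + β 2 * γ 1 - β 1 * γ 2],
    ![0, 1, 0, -γ 1], ![0, 0, 1, -γ 2]]
  let a' : Fin 7 → Fin 4 → ℂ := fun s k => ∑ k', U k k' * a s k'
  let x' : Fin 7 → Fin 3 → ℂ := fun s i => ∑ i', V i i' * b s i'
  let y' : Fin 7 → Fin 3 → ℂ := fun s j => ∑ j', W j j' * c s j'
  have hx0 : ∀ i, x' s₀ i = 0 := by
    intro i
    fin_cases i <;> simp [x', V, Fin.sum_univ_four, b0, b1, b2] <;> ring
  have hy0 : ∀ i, y' s₁ i = 0 := by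
    intro i
    fin_cases i <;> simp [y', W, Fin.sum_univ_four, c0, c1, c2] <;> ring
  have hF : ∀ k i j, F k i j = ∑ k', ∑ i', ∑ j', U k k' * V i i' * W j j' * ext k' i' j' := by
    intro k i j
    fin_cases k <;> fin_cases i <;> fin_cases j <;>
      simp [F, ext, U, V, W, Fin.sum_univ_four] <;> ring
  have hF' : ∀ k i j, F k i j = ∑ s, a' s k * x' s i * y' s j := by
    intro k i j
    rw [hF]
    simp_rw [h]
    simp only [a', x', y', Fin.sum_univ_four, Finset.mul_sum, ← Finset.sum_add_distrib]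
    refine Finset.sum_congr rfl fun s _ => by ring
  let ι := {s : Fin 7 // s ≠ s₀ ∧ s ≠ s₁}
  have hι : Fintype.card ι = 5 := by
    have : ∀ u w : Fin 7, w ≠ u → Fintype.card {s : Fin 7 // s ≠ u ∧ s ≠ w} = 5 := by decide
    exact this s₀ s₁ hne
  refine core (ι := ι) hι (fun s => a' s.1) (fun s => x' s.1) (fun s => y' s.1) ?_
  intro k i j
  rw [hF']
  have e1 : ∑ s ∈ Finset.univ.filter (fun s : Fin 7 => s ≠ s₀ ∧ s ≠ s₁),
      a' s k * x' s i * y' s j = ∑ s : ι, a' s.1 k * x' s.1 i * y' s.1 j :=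
    Finset.sum_subtype (p := fun s : Fin 7 => s ≠ s₀ ∧ s ≠ s₁)
      (Finset.univ.filter fun s : Fin 7 => s ≠ s₀ ∧ s ≠ s₁) (by simp)
      (fun s => a' s k * x' s i * y' s j)
  refine Eq.trans ?_ e1
  symm
  apply Finset.sum_subset (Finset.filter_subset _ _)
  intro s _ hs
  simp only [Finset.mem_filter, Finset.mem_univ, true_and, not_and_or, not_not] at hs
  rcases hs with rfl | rfl
  · rw [hx0]; ring
  · rw [hy0]; ring

end Pool.Agent.MR4
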