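import Pool.Agent.MR4.Main
import Pool.Agent.MR4.Lower

set_option autoImplicit false

/-!
# The maximal rank of complex `4 × 4 × 4` tensors is `8` or `9`

Upper bound. If two of the four slices are simultaneously diagonalisable, then four decomposable
arrays give these two slices, and adding suitable multiples of the same four makes the remaining
pencil diagonalisable, so the rank is at most eight. Every tensor is brought to this form by one
decomposable array, unless it is one of a few explicit tensors (slices of rank two, a vanishing
slice, or a unit matrix and anticommuting matrices of square zero), which are treated directly.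

Lower bound. The multiplication of the exterior algebra of a plane has rank at least eight:
the substitution method leaves a space of `3 × 3` matrices which is not contained in the span of
five matrices of rank one.
-/

namespace Pool.Agent.Results.MP_9e4661_ag.EightOrNine

open Pool.Agent.MR4

/-- The complex `n × n × n` array `T` is a sum of `r` decomposable arrays `a ⊗ b ⊗ c`, where
`(a ⊗ b ⊗ c) i j k = a i * b j * c k`. -/
def IsSumOfDecomposable {n : ℕ} (r : ℕ) (T : Fin n → Fin n → Fin n → ℂ) : Prop :=
  ∃ a b c : Fin r → Fin n → ℂ, ∀ i j k, T i j k = ∑ s, a s i * b s j * c s k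

/-- The rank of a complex `n × n × n` array: the least `r` such that it is a sum of `r`
decomposable arrays. -/
noncomputable def tensorRank {n : ℕ} (T : Fin n → Fin n → Fin n → ℂ) : ℕ :=
  sInf {r : ℕ | IsSumOfDecomposable r T}

/-- The maximal rank of a complex `n × n × n` array. -/
noncomputable def mrank (n : ℕ) : ℕ :=
  sSup (Set.range fun T : Fin n → Fin n → Fin n → ℂ => tensorRank T)

lemma isSum_iff {r : ℕ} (T : Fin 4 → Fin 4 → Fin 4 → ℂ) :
    IsSumOfDecomposable r T ↔ RK r (fun k => Matrix.of (T k)) := Iff.rfl

lemma isSum_nine (T : Fin 4 → Fin 4 → Fin 4 → ℂ) : IsSumOfDecomposable 9 T :=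
  (isSum_iff T).mpr (RK9_all _)

lemma tensorRank_le_nine (T : Fin 4 → Fin 4 → Fin 4 → ℂ) : tensorRank T ≤ 9 :=
  Nat.sInf_le (isSum_nine T)

lemma bdd : BddAbove (Set.range fun T : Fin 4 → Fin 4 → Fin 4 → ℂ => tensorRank T) :=
  ⟨9, by rintro _ ⟨T, rfl⟩; exact tensorRank_le_nine T⟩

lemma eight_le_tensorRank : 8 ≤ tensorRank (fun k i j => ext k i j) := by
  have hne : {r : ℕ | IsSumOfDecomposable r (fun k i j => ext k i j)}.Nonempty :=
    ⟨9, isSum_nine _⟩
  have hmem : IsSumOfDecomposable (tensorRank (fun k i j => ext k i j)) (fun k i j => ext k i j) :=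
    Nat.sInf_mem hne
  by_contra hlt
  push Not at hlt
  exact lower (RK.mono ((isSum_iff _).mp hmem) (by omega))

/-- The maximal rank of complex `4 × 4 × 4` tensors is eight or nine. -/
theorem result : mrank 4 = 8 ∨ mrank 4 = 9 := by
  have h1 : mrank 4 ≤ 9 := csSup_le (Set.range_nonempty _) (by
    rintro _ ⟨T, rfl⟩
    exact tensorRank_le_nine T)
  have h2 : 8 ≤ mrank 4 := le_trans eight_le_tensorRank (le_csSup bdd ⟨_, rfl⟩)
  omega

end Pool.Agent.Results.MP_9e4661_ag.EightOrNine
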