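import Pool.Agent.MR4.Basic

set_option autoImplicit false

/-!
# Slices whose combinations are scalar plus square zero

If every combination of the four slices (one of them is the identity) is the sum of a scalar
matrix and of a matrix with square zero, the array has rank at most nine.
-/

namespace Pool.Agent.MR4

open Matrix

/-- A sum over any finite index type. -/
lemma RK_of_fintype {ι : Type*} [Fintype ι] {M : Sl} (a b c : ι → Fin 4 → ℂ)
    (h : ∀ k i j, M k i j = ∑ s, a s k * b s i * c s j) : RK (Fintype.card ι) M := by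
  refine ⟨fun s => a ((Fintype.equivFin ι).symm s), fun s => b ((Fintype.equivFin ι).symm s),
    fun s => c ((Fintype.equivFin ι).symm s), fun k i j => ?_⟩
  rw [h]
  exact ((Fintype.equivFin ι).symm.sum_comp (fun s => a s k * b s i * c s j)).symm

/-- Slices which are combinations of the slices of an array of rank `≤ r`. -/
lemma RK.comb {r : ℕ} {M M' : Sl} (h : RK r M')
    (hc : ∀ k, ∃ g : Fin 4 → ℂ, M k = ∑ l, g l • M' l) : RK r M := by
  choose g hg using hc
  have h1 := h.mix (Matrix.of g)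
  have e : (fun k => ∑ l, Matrix.of g k l • M' l) = M := by
    funext k
    rw [hg k]
    rfl
  rwa [e] at h1

/-- The slices of the exterior algebra of a plane, as operators. -/
lemma RK_ext9 : RK 9 ![(1 : Matrix (Fin 4) (Fin 4) ℂ),
    !![0, 0, 0, 0; 1, 0, 0, 0; 0, 0, 0, 0; 0, 0, 1, 0],
    !![0, 0, 0, 0; 0, 0, 0, 0; 1, 0, 0, 0; 0, -1, 0, 0],
    !![0, 0, 0, 0; 0, 0, 0, 0; 0, 0, 0, 0; 1, 0, 0, 0]] := by
  refine ⟨![![1, 1, 0, 0], ![1, 0, 1, 0], ![1, 0, 0, 1], ![1, 0, 0, 0], ![0, 1, 0, 0],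
      ![0, 0, 1, 0], ![0, 0, 0, 1], ![0, 1, 0, 0], ![0, 0, 1, 0]],
    ![![0, 1, 0, 0], ![0, 0, 1, 0], ![0, 0, 0, 1], ![1, -1, -1, -1], ![0, -1, 0, 0],
      ![0, 0, -1, 0], ![0, 0, 0, -1], ![0, 0, 0, 1], ![0, 0, 0, -1]],
    ![![1, 1, 0, 0], ![1, 0, 1, 0], ![1, 0, 0, 1], ![1, 0, 0, 0], ![0, 1, 0, 0],
      ![0, 0, 1, 0], ![0, 0, 0, 1], ![0, 0, 1, 0], ![0, 1, 0, 0]], ?_⟩
  intro k i j
  fin_cases k <;> fin_cases i <;> fin_cases j <;> simp [Fin.sum_univ_succ]

section Plane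

variable {S : Submodule ℂ (Matrix (Fin 4) (Fin 4) ℂ)} (hS : ∀ X ∈ S, X * X = 0)

include hS

lemma anti {X Y : Matrix (Fin 4) (Fin 4) ℂ} (hX : X ∈ S) (hY : Y ∈ S) : X * Y = -(Y * X) := by
  have h := hS _ (S.add_mem hX hY)
  rw [Matrix.add_mul, Matrix.mul_add, Matrix.mul_add, hS X hX, hS Y hY] at h
  simp only [zero_add, add_zero] at h
  exact eq_neg_of_add_eq_zero_left h

/-- The matrix with the columns `e`, `A e`, `B e`, `A B e`. -/
def colM (A B : Matrix (Fin 4) (Fin 4) ℂ) (e : Fin 4 → ℂ) : Matrix (Fin 4) (Fin 4) ℂ :=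
  Matrix.of fun i j => (![e, A *ᵥ e, B *ᵥ e, (A * B) *ᵥ e] : Fin 4 → Fin 4 → ℂ) j i

omit hS in
lemma colM_mulVec (A B : Matrix (Fin 4) (Fin 4) ℂ) (e v : Fin 4 → ℂ) :
    colM A B e *ᵥ v = v 0 • e + v 1 • (A *ᵥ e) + v 2 • (B *ᵥ e) + v 3 • ((A * B) *ᵥ e) := by
  funext i
  have h1 : (colM A B e *ᵥ v) i = ∑ j, colM A B e i j * v j := rfl
  rw [h1, Fin.sum_univ_four]
  simp only [colM, Matrix.of_apply, Pi.add_apply, Pi.smul_apply, smul_eq_mul, Matrix.cons_val]
  ring

variable {A B : Matrix (Fin 4) (Fin 4) ℂ} (hA : A ∈ S) (hB : B ∈ S)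

include hA hB

lemma ABA : A * B * A = 0 := by
  rw [anti hS hA hB, Matrix.neg_mul, Matrix.mul_assoc, hS A hA, Matrix.mul_zero, neg_zero]

lemma ABB : A * B * B = 0 := by
  rw [Matrix.mul_assoc, hS B hB, Matrix.mul_zero]

lemma AAB : A * (A * B) = 0 := by
  rw [← Matrix.mul_assoc, hS A hA, Matrix.zero_mul]

lemma BAB : B * (A * B) = 0 := by
  rw [anti hS hA hB, Matrix.mul_neg, ← Matrix.mul_assoc, hS B hB, Matrix.zero_mul, neg_zero]

lemma ABAB : A * B * (A * B) = 0 := by
  rw [← Matrix.mul_assoc, ABA hS hA hB, Matrix.zero_mul]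

lemma colM_det {e : Fin 4 → ℂ} (he : (A * B) *ᵥ e ≠ 0) : (colM A B e).det ≠ 0 := by
  intro hdet
  obtain ⟨v, hv, h⟩ := Matrix.exists_mulVec_eq_zero_iff.2 hdet
  rw [colM_mulVec] at h
  apply hv
  have h0 : v 0 = 0 := by
    have h1 := congrArg (fun w => (A * B) *ᵥ w) h
    simp only [Matrix.mulVec_add, Matrix.mulVec_smul, Matrix.mulVec_mulVec, ABA hS hA hB,
      ABB hS hA hB, ABAB hS hA hB, Matrix.zero_mulVec, smul_zero, add_zero,
      Matrix.mulVec_zero] at h1
    exact (smul_eq_zero.1 h1).resolve_right he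
  rw [h0, zero_smul, zero_add] at h
  have h2 : v 2 = 0 := by
    have h1 := congrArg (fun w => A *ᵥ w) h
    simp only [Matrix.mulVec_add, Matrix.mulVec_smul, Matrix.mulVec_mulVec, AAB hS hA hB,
      hS A hA, Matrix.zero_mulVec, smul_zero, add_zero, zero_add, Matrix.mulVec_zero] at h1
    exact (smul_eq_zero.1 h1).resolve_right he
  have h1' : v 1 = 0 := by
    have h1 := congrArg (fun w => B *ᵥ w) h
    simp only [Matrix.mulVec_add, Matrix.mulVec_smul, Matrix.mulVec_mulVec, BAB hS hA hB,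
      hS B hB, Matrix.zero_mulVec, smul_zero, add_zero, zero_add, Matrix.mulVec_zero] at h1
    rw [anti hS hB hA, Matrix.neg_mulVec, smul_neg, neg_eq_zero] at h1
    exact (smul_eq_zero.1 h1).resolve_right he
  rw [h2, h1', zero_smul, zero_smul, zero_add, zero_add] at h
  have h3 : v 3 = 0 := (smul_eq_zero.1 h).resolve_right he
  funext i
  fin_cases i
  · exact h0
  · exact h1'
  · exact h2
  · exact h3

omit hS hA hB in
lemma mul_colM (X : Matrix (Fin 4) (Fin 4) ℂ) (e : Fin 4 → ℂ) :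
    X * colM A B e = Matrix.of fun i j =>
      (![X *ᵥ e, (X * A) *ᵥ e, (X * B) *ᵥ e, (X * (A * B)) *ᵥ e] : Fin 4 → Fin 4 → ℂ) j i := by
  ext i j
  simp only [Matrix.mul_apply, colM, Matrix.of_apply]
  fin_cases j
  · rfl
  · exact congrFun (Matrix.mulVec_mulVec e X A) i
  · exact congrFun (Matrix.mulVec_mulVec e X B) i
  · exact congrFun (Matrix.mulVec_mulVec e X (A * B)) i

/-- Every element of the space is a combination of `A`, `B` and `A B`. -/
lemma span_form (hAB : A * B ≠ 0) {X : Matrix (Fin 4) (Fin 4) ℂ} (hX : X ∈ S) :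
    ∃ b c d : ℂ, X = b • A + c • B + d • (A * B) := by
  have hex : ∃ e : Fin 4 → ℂ, (A * B) *ᵥ e ≠ 0 := by
    by_contra hcon
    push Not at hcon
    apply hAB
    ext i j
    have h1 := congrFun (hcon (Pi.single j 1)) i
    simpa using h1
  obtain ⟨e, he⟩ := hex
  have hdet := colM_det hS hA hB he
  have hunit : IsUnit (colM A B e).det := isUnit_iff_ne_zero.2 hdet
  set P := colM A B e with hP
  set v := P⁻¹ *ᵥ (X *ᵥ e) with hv
  have hXe : X *ᵥ e = v 0 • e + v 1 • (A *ᵥ e) + v 2 • (B *ᵥ e) + v 3 • ((A * B) *ᵥ e) := by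
    rw [← colM_mulVec, hv, ← hP, Matrix.mulVec_mulVec, Matrix.mul_nonsing_inv _ hunit,
      Matrix.one_mulVec]
  set Y := X - v 1 • A - v 2 • B with hY
  have hYS : Y ∈ S := S.sub_mem (S.sub_mem hX (S.smul_mem _ hA)) (S.smul_mem _ hB)
  have hYe : Y *ᵥ e = v 0 • e + v 3 • ((A * B) *ᵥ e) := by
    rw [hY, Matrix.sub_mulVec, Matrix.sub_mulVec, hXe, Matrix.smul_mulVec, Matrix.smul_mulVec]
    abel
  have hYAB : Y * (A * B) = A * B * Y := by
    rw [← Matrix.mul_assoc, anti hS hYS hA, Matrix.neg_mul, Matrix.mul_assoc,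
      anti hS hYS hB, Matrix.mul_neg, neg_neg, Matrix.mul_assoc]
  have hYABe : (Y * (A * B)) *ᵥ e = v 0 • ((A * B) *ᵥ e) := by
    rw [hYAB, ← Matrix.mulVec_mulVec, hYe, Matrix.mulVec_add, Matrix.mulVec_smul,
      Matrix.mulVec_smul, Matrix.mulVec_mulVec, ABAB hS hA hB, Matrix.zero_mulVec, smul_zero,
      add_zero]
  have ha : v 0 = 0 := by
    have h1 : (Y * Y) *ᵥ e = 0 := by rw [hS Y hYS, Matrix.zero_mulVec]
    rw [← Matrix.mulVec_mulVec, hYe, Matrix.mulVec_add, Matrix.mulVec_smul, Matrix.mulVec_smul,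
      hYe, Matrix.mulVec_mulVec, hYABe] at h1
    -- `a ^ 2 e + 2 a d A B e = 0`
    have h2 := congrArg (fun w => (A * B) *ᵥ w) h1
    simp only [Matrix.mulVec_add, Matrix.mulVec_smul, Matrix.mulVec_mulVec,
      ABAB hS hA hB, Matrix.zero_mulVec, smul_zero, add_zero, Matrix.mulVec_zero] at h2
    rcases smul_eq_zero.1 h2 with h3 | h3
    · exact h3
    · exact (smul_eq_zero.1 h3).resolve_right he
  rw [ha, zero_smul, zero_add] at hYe
  rw [ha, zero_smul] at hYABe
  have hYA : (Y * A) *ᵥ e = 0 := by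
    rw [anti hS hYS hA, Matrix.neg_mulVec, ← Matrix.mulVec_mulVec, hYe, Matrix.mulVec_smul,
      Matrix.mulVec_mulVec, AAB hS hA hB, Matrix.zero_mulVec, smul_zero, neg_zero]
  have hYB : (Y * B) *ᵥ e = 0 := by
    rw [anti hS hYS hB, Matrix.neg_mulVec, ← Matrix.mulVec_mulVec, hYe, Matrix.mulVec_smul,
      Matrix.mulVec_mulVec, BAB hS hA hB, Matrix.zero_mulVec, smul_zero, neg_zero]
  have hfin : Y * P = (v 3 • (A * B)) * P := by
    rw [hP, mul_colM, mul_colM, hYe, hYA, hYB, hYABe]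
    simp only [Matrix.smul_mul, ABA hS hA hB, ABB hS hA hB, ABAB hS hA hB, smul_zero,
      Matrix.zero_mulVec, Matrix.smul_mulVec]
  have hYeq : Y = v 3 • (A * B) := by
    have h1 := congrArg (fun Z => Z * P⁻¹) hfin
    simpa [Matrix.mul_nonsing_inv_cancel_right _ _ hunit] using h1
  refine ⟨v 1, v 2, v 3, ?_⟩
  rw [← hYeq, hY]
  abel

/-- The array `(1, A, B, A B)` has rank at most nine. -/
lemma RK_plane (hAB : A * B ≠ 0) : RK 9 ![1, A, B, A * B] := by
  have hex : ∃ e : Fin 4 → ℂ, (A * B) *ᵥ e ≠ 0 := by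
    by_contra hcon
    push Not at hcon
    apply hAB
    ext i j
    have h1 := congrFun (hcon (Pi.single j 1)) i
    simpa using h1
  obtain ⟨e, he⟩ := hex
  have hdet := colM_det hS hA hB he
  have hunit : IsUnit (colM A B e).det := isUnit_iff_ne_zero.2 hdet
  have hBA : B * A = -(A * B) := anti hS hB hA
  have h1 := RK_ext9.mul (colM A B e) (colM A B e)⁻¹
  have key : ∀ (X X0 : Matrix (Fin 4) (Fin 4) ℂ), X * colM A B e = colM A B e * X0 →
      colM A B e * X0 * (colM A B e)⁻¹ = X := by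
    intro X X0 h
    rw [← h, Matrix.mul_nonsing_inv_cancel_right _ _ hunit]
  have e1 : (fun k => colM A B e * ![(1 : Matrix (Fin 4) (Fin 4) ℂ),
      !![0, 0, 0, 0; 1, 0, 0, 0; 0, 0, 0, 0; 0, 0, 1, 0],
      !![0, 0, 0, 0; 0, 0, 0, 0; 1, 0, 0, 0; 0, -1, 0, 0],
      !![0, 0, 0, 0; 0, 0, 0, 0; 0, 0, 0, 0; 1, 0, 0, 0]] k * (colM A B e)⁻¹) =
      ![1, A, B, A * B] := by
    funext k
    apply key
    fin_cases k
    · simp
    · simp only [Fin.mk_one, Matrix.cons_val_one, Matrix.cons_val_zero]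
      rw [mul_colM, hS A hA, AAB hS hA hB]
      ext i j
      fin_cases j <;> simp [colM, Matrix.mul_apply, Fin.sum_univ_four]
    · simp only [Fin.reduceFinMk, Matrix.cons_val]
      rw [mul_colM, hS B hB, BAB hS hA hB, hBA]
      ext i j
      fin_cases j <;> simp [colM, Matrix.mul_apply, Fin.sum_univ_four, Matrix.neg_mulVec]
    · simp only [Fin.reduceFinMk, Matrix.cons_val]
      rw [mul_colM, ABA hS hA hB, ABB hS hA hB, ABAB hS hA hB]
      ext i j
      fin_cases j <;> simp [colM, Matrix.mul_apply, Fin.sum_univ_four]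
  rwa [e1] at h1

end Plane

/-- Matrices with all products zero. -/
lemma RK_null {N : Sl} (h : ∀ k l, N k * N l = 0) : RK 4 N := by
  -- the span of the images
  set I : Submodule ℂ (Fin 4 → ℂ) := ⨆ k, LinearMap.range (Matrix.mulVecLin (N k)) with hI
  obtain ⟨J, hJ⟩ := Submodule.exists_isCompl I
  have hNI : ∀ k, ∀ v ∈ I, N k *ᵥ v = 0 := by
    intro k v hv
    have h1 : I ≤ LinearMap.ker (Matrix.mulVecLin (N k)) := by
      rw [hI]
      apply iSup_le
      rintro l w ⟨u, rfl⟩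
      rw [LinearMap.mem_ker]
      simp only [Matrix.mulVecLin_apply, Matrix.mulVec_mulVec]
      rw [h k l, Matrix.zero_mulVec]
    exact h1 hv
  have hmem : ∀ k (v : Fin 4 → ℂ), N k *ᵥ v ∈ I := by
    intro k v
    rw [hI]
    exact Submodule.mem_iSup_of_mem k ⟨v, rfl⟩
  set bI := Module.finBasis ℂ I with hbI
  set bJ := Module.finBasis ℂ J with hbJ
  have hdim : Module.finrank ℂ I + Module.finrank ℂ J = 4 := by
    have := Submodule.finrank_add_eq_of_isCompl hJ
    simpa using this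
  -- the coefficients
  have hNv : ∀ k (v : Fin 4 → ℂ), N k *ᵥ v = N k *ᵥ ((J.projectionOnto I hJ.symm v : J) :
      Fin 4 → ℂ) := by
    intro k v
    have h1 : ((I.projectionOnto J hJ v : I) : Fin 4 → ℂ) +
        ((J.projectionOnto I hJ.symm v : J) : Fin 4 → ℂ) = v := by
      rw [Submodule.coe_projectionOnto_apply, Submodule.coe_projectionOnto_apply]
      exact Submodule.projection_add_projection_eq_self hJ v
    conv_lhs => rw [← h1]
    rw [Matrix.mulVec_add, hNI k _ (Submodule.coe_mem _), zero_add]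
  have hfin : ∀ k i j, N k i j = ∑ s : Fin (Module.finrank ℂ I) × Fin (Module.finrank ℂ J),
      (bI.repr ⟨N k *ᵥ (bJ s.2 : Fin 4 → ℂ), hmem k _⟩ s.1) * ((bI s.1 : Fin 4 → ℂ) i) *
        (bJ.repr (J.projectionOnto I hJ.symm (Pi.single j 1)) s.2) := by
    intro k i j
    have h1 : N k i j = (N k *ᵥ (Pi.single j 1)) i := by simp
    rw [h1, hNv]
    have h2 : ((J.projectionOnto I hJ.symm (Pi.single j 1) : J) : Fin 4 → ℂ) =
        ∑ t, (bJ.repr (J.projectionOnto I hJ.symm (Pi.single j 1)) t) •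
          (bJ t : Fin 4 → ℂ) := by
      have := congrArg (fun w : J => (w : Fin 4 → ℂ))
        (bJ.sum_repr (J.projectionOnto I hJ.symm (Pi.single j 1)))
      simp only [Submodule.coe_sum, Submodule.coe_smul] at this
      exact this.symm
    have h3 : ∀ t, N k *ᵥ (bJ t : Fin 4 → ℂ) =
        ∑ u, (bI.repr ⟨N k *ᵥ (bJ t : Fin 4 → ℂ), hmem k _⟩ u) • (bI u : Fin 4 → ℂ) := by
      intro t
      have := congrArg (fun w : I => (w : Fin 4 → ℂ))
        (bI.sum_repr ⟨N k *ᵥ (bJ t : Fin 4 → ℂ), hmem k _⟩)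
      simp only [Submodule.coe_sum, Submodule.coe_smul] at this
      exact this.symm
    rw [h2, Matrix.mulVec_sum]
    simp only [Matrix.mulVec_smul]
    rw [Finset.sum_apply, Fintype.sum_prod_type_right]
    refine Finset.sum_congr rfl fun t _ => ?_
    rw [Pi.smul_apply, smul_eq_mul]
    conv_lhs => rw [h3 t]
    rw [Finset.sum_apply, Finset.mul_sum]
    refine Finset.sum_congr rfl fun u _ => ?_
    rw [Pi.smul_apply, smul_eq_mul]
    ring
  have hr := RK_of_fintype (M := N)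
    (fun (s : Fin (Module.finrank ℂ I) × Fin (Module.finrank ℂ J)) (k : Fin 4) =>
      bI.repr ⟨N k *ᵥ (bJ s.2 : Fin 4 → ℂ), hmem k _⟩ s.1)
    (fun s => (bI s.1 : Fin 4 → ℂ))
    (fun s j => bJ.repr (J.projectionOnto I hJ.symm (Pi.single j 1)) s.2) hfin
  apply hr.mono
  rw [Fintype.card_prod, Fintype.card_fin, Fintype.card_fin]
  generalize Module.finrank ℂ I = p at hdim ⊢
  generalize Module.finrank ℂ J = q at hdim ⊢
  have hp : p ≤ 4 := by omega
  have hq : q = 4 - p := by omega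
  subst hq
  interval_cases p <;> simp

/-- **Scalar plus square zero.** -/
theorem sqz (M : Sl) (_h0 : M 0 = 1)
    (h : ∀ x : Fin 4 → ℂ, ∃ z : ℂ, (∑ k, x k • M k - z • 1) ^ 2 = 0) : RK 9 M := by
  set z : Fin 4 → ℂ := fun k => (M k).trace / 4 with hz
  set N : Sl := fun k => M k - z k • 1 with hN
  have hsum : ∀ x : Fin 4 → ℂ, ∑ k, x k • N k = ∑ k, x k • M k - (∑ k, x k * z k) • 1 := by
    intro x
    simp only [hN, smul_sub, Finset.sum_sub_distrib, smul_smul, Finset.sum_smul]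
  have hsq : ∀ x : Fin 4 → ℂ, (∑ k, x k • N k) * (∑ k, x k • N k) = 0 := by
    intro x
    obtain ⟨w, hw⟩ := h x
    have hnil : IsNilpotent (∑ k, x k • M k - w • (1 : Matrix (Fin 4) (Fin 4) ℂ)) := ⟨2, hw⟩
    have htr := (Matrix.isNilpotent_trace_of_isNilpotent hnil).eq_zero
    rw [Matrix.trace_sub, Matrix.trace_sum, Matrix.trace_smul, Matrix.trace_one] at htr
    simp only [Matrix.trace_smul, Fintype.card_fin, smul_eq_mul] at htr
    have hwz : w = ∑ k, x k * z k := by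
      have e1 : ∑ k, x k * z k = (∑ k, x k * (M k).trace) / 4 := by
        rw [Finset.sum_div]
        refine Finset.sum_congr rfl fun k _ => ?_
        simp only [hz]
        ring
      rw [e1, sub_eq_zero.1 htr]
      push_cast
      ring
    rw [hsum, ← hwz, ← pow_two]
    exact hw
  -- the space of the matrices `N`
  set S : Submodule ℂ (Matrix (Fin 4) (Fin 4) ℂ) := Submodule.span ℂ (Set.range N) with hSdef
  have hS : ∀ X ∈ S, X * X = 0 := by
    intro X hX
    rw [hSdef, Submodule.mem_span_range_iff_exists_fun] at hX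
    obtain ⟨x, rfl⟩ := hX
    exact hsq x
  have hNS : ∀ k, N k ∈ S := fun k => Submodule.subset_span ⟨k, rfl⟩
  have hMN : ∀ k, M k = z k • 1 + N k := by
    intro k
    simp only [hN]
    abel
  by_cases hall : ∀ k l, N k * N l = 0
  · -- all products vanish
    have hN4 := RK_null hall
    have h1 : RK 4 (fun k => z k • (1 : Matrix (Fin 4) (Fin 4) ℂ)) := by
      have h2 := RK_diag 1 1 (fun k _ => z k)
      have e : (fun k => (1 : Matrix (Fin 4) (Fin 4) ℂ) * diagonal (fun _ => z k) * 1) =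
          (fun k => z k • (1 : Matrix (Fin 4) (Fin 4) ℂ)) := by
        funext k
        rw [Matrix.one_mul, Matrix.mul_one, Matrix.smul_one_eq_diagonal]
      rwa [e] at h2
    have h3 := h1.add hN4
    have e : (fun k => z k • (1 : Matrix (Fin 4) (Fin 4) ℂ) + N k) = M := by
      funext k
      exact (hMN k).symm
    rw [e] at h3
    exact h3.mono (by norm_num)
  · push Not at hall
    obtain ⟨k, l, hkl⟩ := hall
    refine (RK_plane hS (hNS k) (hNS l) hkl).comb fun m => ?_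
    obtain ⟨b, c, d, hm⟩ := span_form hS (hNS k) (hNS l) hkl (hNS m)
    refine ⟨![z m, b, c, d], ?_⟩
    rw [hMN m, hm]
    simp [Fin.sum_univ_four, add_assoc]

end Pool.Agent.MR4
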