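import Pool.Agent.MR4.SingMain
import Pool.Agent.MR4.Cyc
import Pool.Agent.MR4.SqZero

set_option autoImplicit false

namespace Pool.Agent.MR4

open Matrix

lemma RK9_of_one {M : Sl} (h0 : M 0 = 1) : RK 9 M := by
  by_cases h : ∀ x : Fin 4 → ℂ, ∃ z : ℂ, (∑ k, x k • M k - z • 1) ^ 2 = 0
  · exact sqz M h0 h
  push_neg at h
  obtain ⟨y, hy⟩ := h
  have hi : ∃ i, i ≠ 0 ∧ y i ≠ 0 := by
    by_contra hcon
    push_neg at hcon
    refine hy (y 0) ?_
    have : ∑ k, y k • M k = y 0 • (1 : Matrix (Fin 4) (Fin 4) ℂ) := by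
      rw [Finset.sum_eq_single (0 : Fin 4), h0]
      · intro k _ hk
        rw [hcon k hk, zero_smul]
      · simp
    rw [this, sub_self]
    simp
  obtain ⟨i, hi0, hyi⟩ := hi
  obtain ⟨u, v, P, d, hP, e⟩ := cyc (∑ k, y k • M k) hy
  refine RK.of_replace i y hyi (RK.of_perm (Equiv.swap 1 i) ?_)
  refine RK.of_add_one ![0, 1, 0, 0] u v (RK8_of_equiv P⁻¹ P
    (Matrix.isUnit_nonsing_inv_det P hP) hP 1 d ?_ ?_)
  · have h1 : Equiv.swap 1 i 0 = 0 := Equiv.swap_apply_of_ne_of_ne (by decide) (Ne.symm hi0)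
    simp only [h1]
    rw [if_neg (Ne.symm hi0), h0]
    simp only [Matrix.cons_val_zero, zero_smul, add_zero, Matrix.mul_one]
    rw [Matrix.nonsing_inv_mul _ hP]
    exact diagonal_one.symm
  · have h1 : Equiv.swap 1 i 1 = i := Equiv.swap_apply_left _ _
    simp only [h1, if_true]
    have h2 : (![0, 1, 0, 0] : Fin 4 → ℂ) 1 = 1 := rfl
    rw [h2, one_smul, Matrix.mul_assoc, e, ← Matrix.mul_assoc, Matrix.nonsing_inv_mul _ hP,
      Matrix.one_mul]

/-- Every `4 × 4 × 4` array has rank at most nine. -/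
theorem RK9_all (M : Sl) : RK 9 M := by
  by_cases h : ∀ x : Fin 4 → ℂ, (∑ k, x k • M k).det = 0
  · exact sing M h
  push_neg at h
  obtain ⟨x, hx⟩ := h
  have hi : ∃ i, x i ≠ 0 := by
    by_contra hcon
    push_neg at hcon
    refine hx ?_
    simp [hcon]
  obtain ⟨i, hi⟩ := hi
  refine RK.of_replace i x hi (RK.of_perm (Equiv.swap 0 i) ?_)
  have hU : IsUnit (∑ k, x k • M k).det := isUnit_iff_ne_zero.mpr hx
  refine RK.of_mul (∑ k, x k • M k)⁻¹ 1 (Matrix.isUnit_nonsing_inv_det _ hU) (by simp) ?_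
  refine RK9_of_one ?_
  have h1 : Equiv.swap 0 i 0 = i := Equiv.swap_apply_left _ _
  simp only [h1, if_true]
  rw [Matrix.mul_one, Matrix.nonsing_inv_mul _ hU]

end Pool.Agent.MR4
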