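import Pool.Agent.MR4.SingMain
import Pool.Agent.MR4.Cyc

set_option autoImplicit false

namespace Pool.Agent.MR4

open Matrix

/-- A single slice of rank at most `r`. -/
lemma RK_single_rank {r : ℕ} (X : Matrix (Fin 4) (Fin 4) ℂ) (hX : X.rank ≤ r) (k0 : Fin 4) :
    RK r (fun k => if k = k0 then X else 0) := by
  obtain ⟨P, Q, D, hP, hQ, e⟩ := exists_diag X
  refine RK.of_mul P Q hP hQ ?_
  have hr : Fintype.card {i // D i ≠ 0} ≤ r := by
    rw [← Matrix.rank_diagonal, ← e, Matrix.rank_mul_eq_left_of_isUnit_det _ _ hQ,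
      Matrix.rank_mul_eq_right_of_isUnit_det _ _ hP]
    exact hX
  refine RK_of_ft (S := {i // D i ≠ 0}) (fun s => Pi.single k0 (D s.1))
    (fun s => Pi.single s.1 1) (fun s => Pi.single s.1 1) (fun k i j => ?_) hr
  have h1 : ∑ s : {i // D i ≠ 0}, (Pi.single k0 (D s.1) : Fin 4 → ℂ) k *
      (Pi.single s.1 1 : Fin 4 → ℂ) i * (Pi.single s.1 1 : Fin 4 → ℂ) j =
      ∑ s : Fin 4, (Pi.single k0 (D s) : Fin 4 → ℂ) k *
      (Pi.single s 1 : Fin 4 → ℂ) i * (Pi.single s 1 : Fin 4 → ℂ) j := by
    refine Fintype.sum_of_injective Subtype.val Subtype.val_injective _ _ ?_ (fun _ => rfl)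
    intro s hs
    have : D s = 0 := by
      by_contra hne
      exact hs ⟨⟨s, hne⟩, rfl⟩
    simp [this]
  rw [h1]
  by_cases hk : k = k0
  · subst hk
    simp only [if_true, e, Pi.single_eq_same]
    by_cases hij : i = j
    · subst hij
      simp [Pi.single_apply]
    · rw [diagonal_apply_ne _ hij]
      refine (Finset.sum_eq_zero fun s _ => ?_).symm
      by_cases h2 : i = s
      · subst h2
        simp [Ne.symm hij]
      · simp [Pi.single_apply, h2]
  · simp [hk]

lemma rank_le_two_of_sq {N : Matrix (Fin 4) (Fin 4) ℂ} (h : N ^ 2 = 0) : N.rank ≤ 2 := by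
  have h1 : N * N = 0 := by rw [← sq]; exact h
  have h2 := Matrix.rank_add_rank_le_card_of_mul_eq_zero h1
  rw [Fintype.card_fin] at h2
  omega

/-- Two slices, one of them the unit matrix. -/
lemma RK6_of_one {M : Sl} (h0 : M 0 = 1) (h2 : M 2 = 0) (h3 : M 3 = 0) : RK 6 M := by
  by_cases h : ∀ z : ℂ, (M 1 - z • 1) ^ 2 ≠ 0
  · obtain ⟨u, v, P, d, hP, e⟩ := cyc (M 1) h
    refine RK.mono (r := 5) (RK.of_add_one ![0, 1, 0, 0] u v ?_) (by norm_num)
    have h4 := RK_diag P P⁻¹ ![1, d, 0, 0]
    convert h4 using 2 with k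
    fin_cases k
    · simp [h0, Matrix.mul_nonsing_inv _ hP]
    · change M 1 + (1 : ℂ) • vecMulVec u v = P * diagonal d * P⁻¹
      rw [one_smul, ← e, Matrix.mul_nonsing_inv_cancel_right _ _ hP]
    · simp [h2]
    · simp [h3]
  · push Not at h
    obtain ⟨z, hz⟩ := h
    have h4 := (RK_diag 1 1 ![1, fun _ => z, 0, 0]).add
      (RK_single_rank (r := 2) (M 1 - z • 1) (rank_le_two_of_sq hz) 1)
    convert h4 using 2 with k
    fin_cases k
    · simp [h0]
    · change M 1 = 1 * diagonal (fun _ => z) * 1 + (M 1 - z • 1)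
      have : (diagonal fun _ => z : Matrix (Fin 4) (Fin 4) ℂ) = z • 1 := by
        rw [← Matrix.smul_one_eq_diagonal]
      rw [this]; simp
    · simp [h2]
    · simp [h3]

/-- Two slices: the rank is at most six. -/
theorem RK6_pencil {M : Sl} (h2 : M 2 = 0) (h3 : M 3 = 0) : RK 6 M := by
  by_cases h : (M 0).rank ≤ 3 ∧ (M 1).rank ≤ 3
  · have h4 := (RK_single_rank (r := 3) (M 0) h.1 0).add (RK_single_rank (r := 3) (M 1) h.2 1)
    convert h4 using 2 with k
    fin_cases k
    · simp
    · simp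
    · simp [h2]
    · simp [h3]
  · have key : ∀ M : Sl, 3 < (M 0).rank → M 2 = 0 → M 3 = 0 → RK 6 M := by
      intro M hr h2 h3
      have hU : IsUnit (M 0).det := by
        have h5 : (M 0).rank = Fintype.card (Fin 4) := by
          have := Matrix.rank_le_card_width (M 0)
          rw [Fintype.card_fin] at this ⊢
          omega
        have h6 := Matrix.linearIndependent_rows_iff_isUnit (A := M 0)
        have h7 : LinearIndependent ℂ (M 0).row := by
          rw [linearIndependent_iff_card_eq_finrank_span, ← h5]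
          exact Matrix.rank_eq_finrank_span_row _
        exact (Matrix.isUnit_iff_isUnit_det _).mp (h6.mp h7)
      refine RK.of_mul (M 0)⁻¹ 1 (Matrix.isUnit_nonsing_inv_det _ hU) (by simp)
        (RK6_of_one ?_ ?_ ?_)
      · rw [Matrix.mul_one, Matrix.nonsing_inv_mul _ hU]
      · simp [h2]
      · simp [h3]
    by_cases h0 : 3 < (M 0).rank
    · exact key M h0 h2 h3
    · have h1 : 3 < (M 1).rank := by
        by_contra hcon
        exact h ⟨by omega, by omega⟩
      refine RK.of_perm (Equiv.swap 0 1) (key _ ?_ ?_ ?_)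
      · simpa using h1
      · have : Equiv.swap (0 : Fin 4) 1 2 = 2 := by decide
        simp only [this, h2]
      · have : Equiv.swap (0 : Fin 4) 1 3 = 3 := by decide
        simp only [this, h3]

end Pool.Agent.MR4
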