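import Pool.Agent.MR4.Eight

set_option autoImplicit false

namespace Pool.Agent.MR4

open Matrix

/-! ### Changing the slices -/

lemma RK.of_perm {r : ℕ} {M : Sl} (σ : Equiv.Perm (Fin 4)) (h : RK r (fun k => M (σ k))) :
    RK r M := by
  obtain ⟨a, b, c, h⟩ := h
  refine ⟨fun s k => a s (σ.symm k), b, c, fun k i j => ?_⟩
  have := h (σ.symm k) i j
  simpa using this

lemma det_updateRow_one (i : Fin 4) (y : Fin 4 → ℂ) :
    ((1 : Matrix (Fin 4) (Fin 4) ℂ).updateRow i y).det = y i := by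
  rw [← Matrix.cramer_transpose_apply, Matrix.transpose_one, Matrix.cramer_one]
  rfl

/-- Replacing a slice by a combination in which it occurs. -/
lemma RK.of_replace {r : ℕ} {M : Sl} (i : Fin 4) (y : Fin 4 → ℂ) (hy : y i ≠ 0)
    (h : RK r (fun k => if k = i then ∑ l, y l • M l else M k)) : RK r M := by
  refine RK.of_mix ((1 : Matrix (Fin 4) (Fin 4) ℂ).updateRow i y) ?_ ?_
  · rw [det_updateRow_one]
    exact isUnit_iff_ne_zero.mpr hy
  · convert h using 2 with k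
    by_cases hk : k = i
    · subst hk
      simp
    · rw [if_neg hk]
      simp only [Matrix.updateRow_ne hk, Matrix.one_apply]
      simp

/-- Slices in the third direction. -/
lemma RK.of_rot3 {r : ℕ} {M : Sl} (h : RK r (fun j => Matrix.of fun k i => M k i j)) :
    RK r M := by
  obtain ⟨a, b, c, h⟩ := h
  refine ⟨b, c, a, fun k i j => ?_⟩
  have := h j k i
  simp only [Matrix.of_apply] at this
  rw [this]
  exact Finset.sum_congr rfl fun s _ => by ring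

/-- Slices in the second direction. -/
lemma RK.of_rot2 {r : ℕ} {M : Sl} (h : RK r (fun i => Matrix.of fun k j => M k i j)) :
    RK r M := by
  obtain ⟨a, b, c, h⟩ := h
  refine ⟨b, a, c, fun k i j => ?_⟩
  have := h i k j
  simp only [Matrix.of_apply] at this
  rw [this]
  exact Finset.sum_congr rfl fun s _ => by ring

/-- Every matrix is equivalent to a diagonal one. -/
lemma exists_diag (X : Matrix (Fin 4) (Fin 4) ℂ) :
    ∃ (P Q : Matrix (Fin 4) (Fin 4) ℂ) (D : Fin 4 → ℂ), IsUnit P.det ∧ IsUnit Q.det ∧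
      P * X * Q = diagonal D := by
  obtain ⟨L, L', D, h⟩ := Matrix.Pivot.exists_list_transvec_mul_mul_list_transvec_eq_diagonal X
  refine ⟨_, _, D, ?_, ?_, h⟩
  · rw [Matrix.TransvectionStruct.det_toMatrix_prod]
    exact isUnit_one
  · rw [Matrix.TransvectionStruct.det_toMatrix_prod]
    exact isUnit_one

/-- If one slice vanishes, the rank is at most eight. -/
lemma RK8_of_zero {M : Sl} (h : M 1 = 0) : RK 8 M := by
  obtain ⟨P, Q, D, hP, hQ, e⟩ := exists_diag (M 0)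
  refine RK8_of_equiv P Q hP hQ D 0 e ?_
  simp [h]

lemma RK8_of_zero' {M : Sl} (i : Fin 4) (h : M i = 0) : RK 8 M := by
  refine RK.of_perm (Equiv.swap 1 i) (RK8_of_zero ?_)
  simpa using h

/-! ### The core of the singular case -/

lemma sing_core {M : Sl} (h0 : M 0 = diagonal ![1, 1, 1, 0])
    {a00 a01 a02 a10 a11 a12 a20 a21 a22 : ℂ}
    (h1 : M 1 = !![a00, a01, a02, 1; a10, a11, a12, 0; a20, a21, a22, 0; 0, 0, 1, 0])
    (h : ∀ z : ℂ, (z • M 0 + M 1).det = 0) : RK 9 M := by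
  have hdet : ∀ z : ℂ, a10 * a21 - (a11 + z) * a20 = 0 := by
    intro z
    have := h z
    rw [h0, h1] at this
    rw [Matrix.det_succ_row_zero] at this
    simp [Fin.sum_univ_succ, Matrix.det_fin_three, Fin.succAbove] at this
    linear_combination this
  have h20 : a20 = 0 := by linear_combination hdet 0 - hdet 1
  have h21 : a10 * a21 = 0 := by
    have := hdet 0
    rw [h20] at this
    linear_combination this
  subst h20
  set x := a11 + 1 with hx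
  set q := a11 + 2 with hq
  set c := a11 + 3 with hc
  set u : Fin 4 → ℂ := ![0, a12, a22 - q, 1] with hu
  set v : Fin 4 → ℂ := ![a00 - x, a01, a02, 1] with hv
  set P1 : Matrix (Fin 4) (Fin 4) ℂ :=
    !![1, 0, 0, 0; 0, 1, 0, -a12; 0, 0, 1, -(a22 - q); 0, 0, 0, 1] with hP1
  set Q1 : Matrix (Fin 4) (Fin 4) ℂ :=
    !![1, 0, 0, 0; 0, 1, 0, 0; 0, 0, 1, 0; -(a00 - x), -a01, -a02, 1] with hQ1
  set X : Matrix (Fin 4) (Fin 4) ℂ :=
    !![x, 0, 0, 1; a10, a11, 0, 0; 0, a21, q, 0; 0, 0, 1, c] with hX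
  have e0 : P1 * (M 0 + (1 : ℂ) • vecMulVec u v) * Q1 = 1 := by
    rw [h0]
    ext i j
    simp only [Matrix.mul_apply, Fin.sum_univ_four, Matrix.add_apply, Matrix.smul_apply,
      vecMulVec_apply, smul_eq_mul]
    fin_cases i <;> fin_cases j <;> simp [hP1, hQ1, hu, hv] <;> ring
  have e1 : P1 * (M 1 + c • vecMulVec u v) * Q1 = X := by
    rw [h1]
    ext i j
    simp only [Matrix.mul_apply, Fin.sum_univ_four, Matrix.add_apply, Matrix.smul_apply,
      vecMulVec_apply, smul_eq_mul]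
    fin_cases i <;> fin_cases j <;> simp [hP1, hQ1, hu, hv, hX] <;> ring
  have hdP : P1.det = 1 := by
    rw [hP1, Matrix.det_succ_row_zero]
    simp [Fin.sum_univ_succ, Matrix.det_fin_three, Fin.succAbove]
  have hdQ : Q1.det = 1 := by
    rw [hQ1, Matrix.det_succ_row_zero]
    simp [Fin.sum_univ_succ, Matrix.det_fin_three, Fin.succAbove]
  obtain ⟨S, hS, eS⟩ := diag_of_four X ![x, a11, q, c] (by
    intro i j hij
    fin_cases i <;> fin_cases j <;> simp [hx, hq, hc] at hij ⊢ <;> norm_num at hij) (by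
    intro i
    have : (X - (![x, a11, q, c] : Fin 4 → ℂ) i • (1 : Matrix (Fin 4) (Fin 4) ℂ)).det =
        (x - (![x, a11, q, c] : Fin 4 → ℂ) i) * (a11 - (![x, a11, q, c] : Fin 4 → ℂ) i) *
        (q - (![x, a11, q, c] : Fin 4 → ℂ) i) * (c - (![x, a11, q, c] : Fin 4 → ℂ) i) -
        a10 * a21 := by
      generalize (![x, a11, q, c] : Fin 4 → ℂ) i = t
      rw [hX, Matrix.det_succ_row_zero]
      simp [Fin.sum_univ_succ, Matrix.det_fin_three, Fin.succAbove, Matrix.one_apply]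
      ring
    rw [this, h21]
    fin_cases i <;> simp)
  refine RK.of_add_one ![1, c, 0, 0] u v (RK8_of_equiv (S⁻¹ * P1) (Q1 * S) ?_ ?_ 1
    ![x, a11, q, c] ?_ ?_)
  · rw [Matrix.det_mul, hdP, mul_one]
    exact Matrix.isUnit_nonsing_inv_det S hS
  · rw [Matrix.det_mul, hdQ, one_mul]
    exact hS
  · have : S⁻¹ * P1 * (M 0 + (![1, c, 0, 0] : Fin 4 → ℂ) 0 • vecMulVec u v) * (Q1 * S) =
        S⁻¹ * (P1 * (M 0 + (1 : ℂ) • vecMulVec u v) * Q1) * S := by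
      simp only [Matrix.mul_assoc]; rfl
    rw [this, e0, Matrix.mul_one, Matrix.nonsing_inv_mul _ hS]
    exact diagonal_one.symm
  · have : S⁻¹ * P1 * (M 1 + (![1, c, 0, 0] : Fin 4 → ℂ) 1 • vecMulVec u v) * (Q1 * S) =
        S⁻¹ * (P1 * (M 1 + c • vecMulVec u v) * Q1) * S := by
      simp only [Matrix.mul_assoc]; rfl
    rw [this, e1, Matrix.mul_assoc, eS, ← Matrix.mul_assoc, Matrix.nonsing_inv_mul _ hS,
      Matrix.one_mul]

lemma eq_form (N : Matrix (Fin 4) (Fin 4) ℂ)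
    (hcol : ∀ i, N i 3 = (![1, 0, 0, 0] : Fin 4 → ℂ) i)
    (hrow : ∀ j, N 3 j = (![0, 0, 1, 0] : Fin 4 → ℂ) j) :
    N = !![N 0 0, N 0 1, N 0 2, 1; N 1 0, N 1 1, N 1 2, 0; N 2 0, N 2 1, N 2 2, 0;
      0, 0, 1, 0] := by
  ext i j
  fin_cases i <;> fin_cases j <;> first
    | rfl
    | exact hcol 0
    | exact hcol 1
    | exact hcol 2
    | exact hcol 3
    | exact hrow 0
    | exact hrow 1
    | exact hrow 2

lemma sing_conj {M : Sl} (h0 : M 0 = diagonal ![1, 1, 1, 0])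
    {a0 a1 a2 b0 b1 b2 : ℂ} (ha0 : M 1 0 3 = a0) (ha1 : M 1 1 3 = a1) (ha2 : M 1 2 3 = a2)
    (hb0 : M 1 3 0 = b0) (hb1 : M 1 3 1 = b1) (hb2 : M 1 3 2 = b2) (hd : M 1 3 3 = 0)
    {c0 c1 c2 w0 w1 w2 : ℂ} (hc : a0 * c0 + a1 * c1 + a2 * c2 = 1)
    (hw : b0 * w0 + b1 * w1 + b2 * w2 = 1) (hab : a0 * b0 + a1 * b1 + a2 * b2 = 0)
    (h : ∀ z : ℂ, (z • M 0 + M 1).det = 0) : RK 9 M := by
  set n0 := b1 * c2 - b2 * c1 with hn0
  set n1 := b2 * c0 - b0 * c2 with hn1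
  set n2 := b0 * c1 - b1 * c0 with hn2
  set H : Matrix (Fin 4) (Fin 4) ℂ :=
    !![a0, n0, w0, 0; a1, n1, w1, 0; a2, n2, w2, 0; 0, 0, 0, 1] with hH
  have hdet : H.det = 1 := by
    rw [hH, Matrix.det_succ_row_zero]
    simp [Fin.sum_univ_succ, Matrix.det_fin_three, Fin.succAbove]
    rw [hn0, hn1, hn2]
    linear_combination (b0 * w0 + b1 * w1 + b2 * w2) * hc + hw -
      (c0 * w0 + c1 * w1 + c2 * w2) * hab
  have hU : IsUnit H.det := by rw [hdet]; exact isUnit_one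
  have hJ : H * M 0 = M 0 * H := by
    rw [h0, hH]
    ext i j
    rw [Matrix.mul_diagonal, Matrix.diagonal_mul]
    fin_cases i <;> fin_cases j <;> simp
  have e0 : H⁻¹ * M 0 * H = M 0 := by
    rw [Matrix.mul_assoc, ← hJ, ← Matrix.mul_assoc, Matrix.nonsing_inv_mul _ hU, Matrix.one_mul]
  have hcol : ∀ i, (H⁻¹ * M 1 * H) i 3 = (![1, 0, 0, 0] : Fin 4 → ℂ) i := by
    have e3 : H *ᵥ ![0, 0, 0, 1] = ![0, 0, 0, 1] := by
      ext i; fin_cases i <;> simp [hH, Matrix.mulVec, dotProduct, Fin.sum_univ_four]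
    have e4 : M 1 *ᵥ ![0, 0, 0, 1] = H *ᵥ ![1, 0, 0, 0] := by
      ext i
      fin_cases i <;> simp [hH, Matrix.mulVec, dotProduct, Fin.sum_univ_four, ha0, ha1, ha2, hd]
    have e5 : (H⁻¹ * M 1 * H) *ᵥ ![0, 0, 0, 1] = ![1, 0, 0, 0] := by
      rw [← Matrix.mulVec_mulVec, e3, ← Matrix.mulVec_mulVec, e4, Matrix.mulVec_mulVec,
        Matrix.nonsing_inv_mul _ hU, Matrix.one_mulVec]
    intro i
    have := congrFun e5 i
    simpa [Matrix.mulVec, dotProduct, Fin.sum_univ_four] using this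
  have hrow : ∀ j, (H⁻¹ * M 1 * H) 3 j = (![0, 0, 1, 0] : Fin 4 → ℂ) j := by
    have e3 : ![0, 0, 0, 1] ᵥ* H = ![0, 0, 0, 1] := by
      ext i; fin_cases i <;> simp [hH, Matrix.vecMul, dotProduct, Fin.sum_univ_four]
    have e3' : ![0, 0, 0, 1] ᵥ* H⁻¹ = ![0, 0, 0, 1] := by
      conv_lhs => rw [← e3]
      rw [Matrix.vecMul_vecMul, Matrix.mul_nonsing_inv _ hU, Matrix.vecMul_one]
    have e4 : (![0, 0, 0, 1] ᵥ* M 1) ᵥ* H = ![0, 0, 1, 0] := by
      have : ![0, 0, 0, 1] ᵥ* M 1 = ![b0, b1, b2, 0] := by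
        ext i
        fin_cases i <;> simp [Matrix.vecMul, dotProduct, Fin.sum_univ_four, hb0, hb1, hb2, hd]
      rw [this]
      ext i
      fin_cases i
      · simp [hH, Matrix.vecMul, dotProduct, Fin.sum_univ_four]
        linear_combination hab
      · simp [hH, Matrix.vecMul, dotProduct, Fin.sum_univ_four, hn0, hn1, hn2]
        ring
      · simp [hH, Matrix.vecMul, dotProduct, Fin.sum_univ_four]
        linear_combination hw
      · simp [hH, Matrix.vecMul, dotProduct, Fin.sum_univ_four]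
    have e5 : ![0, 0, 0, 1] ᵥ* (H⁻¹ * M 1 * H) = ![0, 0, 1, 0] := by
      rw [← Matrix.vecMul_vecMul, ← Matrix.vecMul_vecMul, e3', e4]
    intro j
    have := congrFun e5 j
    simpa [Matrix.vecMul, dotProduct, Fin.sum_univ_four] using this
  have hHi : IsUnit (H⁻¹).det := Matrix.isUnit_nonsing_inv_det H hU
  refine RK.of_mul H⁻¹ H hHi hU ?_
  set N := H⁻¹ * M 1 * H with hN
  refine sing_core (a00 := N 0 0) (a01 := N 0 1) (a02 := N 0 2) (a10 := N 1 0) (a11 := N 1 1)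
    (a12 := N 1 2) (a20 := N 2 0) (a21 := N 2 1) (a22 := N 2 2) ?_ ?_ ?_
  · rw [e0, h0]
  · exact eq_form N hcol hrow
  · intro z
    have : z • (H⁻¹ * M 0 * H) + H⁻¹ * M 1 * H = H⁻¹ * (z • M 0 + M 1) * H := by
      rw [Matrix.mul_add, Matrix.add_mul, Matrix.mul_smul, Matrix.smul_mul]
    rw [this, Matrix.det_mul, Matrix.det_mul, h z, mul_zero, zero_mul]

lemma sing_ab {M : Sl} (h0 : M 0 = diagonal ![1, 1, 1, 0])
    (ha : M 1 0 3 ≠ 0 ∨ M 1 1 3 ≠ 0 ∨ M 1 2 3 ≠ 0)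
    (hb : M 1 3 0 ≠ 0 ∨ M 1 3 1 ≠ 0 ∨ M 1 3 2 ≠ 0)
    (h : ∀ z : ℂ, (z • M 0 + M 1).det = 0) : RK 9 M := by
  have hexp : ∀ z : ℂ, (z • M 0 + M 1).det = (z • diagonal ![1, 1, 1, 0] + M 1).det := by
    intro z; rw [h0]
  have e0 := h 0
  have e1 := h 1
  have e2 := h (-1)
  have e3 := h 2
  rw [hexp] at e0 e1 e2 e3
  rw [Matrix.det_succ_row_zero] at e0 e1 e2 e3
  simp [Fin.sum_univ_succ, Matrix.det_fin_three, Fin.succAbove] at e0 e1 e2 e3
  have hd : M 1 3 3 = 0 := by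
    linear_combination (1 / 6) * e3 - (1 / 2) * e1 + (1 / 2) * e0 - (1 / 6) * e2
  have hab : M 1 0 3 * M 1 3 0 + M 1 1 3 * M 1 3 1 + M 1 2 3 * M 1 3 2 = 0 := by
    linear_combination (-1 / 2) * e1 - (1 / 2) * e2 + e0 +
      (M 1 0 0 + M 1 1 1 + M 1 2 2) * hd
  have hc : ∃ c0 c1 c2 : ℂ, M 1 0 3 * c0 + M 1 1 3 * c1 + M 1 2 3 * c2 = 1 := by
    rcases ha with ha | ha | ha
    · exact ⟨(M 1 0 3)⁻¹, 0, 0, by field_simp; ring⟩
    · exact ⟨0, (M 1 1 3)⁻¹, 0, by field_simp; ring⟩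
    · exact ⟨0, 0, (M 1 2 3)⁻¹, by field_simp; ring⟩
  have hw : ∃ w0 w1 w2 : ℂ, M 1 3 0 * w0 + M 1 3 1 * w1 + M 1 3 2 * w2 = 1 := by
    rcases hb with hb | hb | hb
    · exact ⟨(M 1 3 0)⁻¹, 0, 0, by field_simp; ring⟩
    · exact ⟨0, (M 1 3 1)⁻¹, 0, by field_simp; ring⟩
    · exact ⟨0, 0, (M 1 3 2)⁻¹, by field_simp; ring⟩
  obtain ⟨c0, c1, c2, hc⟩ := hc
  obtain ⟨w0, w1, w2, hw⟩ := hw
  exact sing_conj h0 rfl rfl rfl rfl rfl rfl hd hc hw hab h

end Pool.Agent.MR4
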