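import Pool.Agent.MR4.Sing

set_option autoImplicit false

namespace Pool.Agent.MR4

open Matrix

lemma RK_of_ft {S : Type} [Fintype S] {r : ℕ} {M : Sl} (a b c : S → Fin 4 → ℂ)
    (h : ∀ k i j, M k i j = ∑ s, a s k * b s i * c s j) (hr : Fintype.card S ≤ r) : RK r M := by
  refine RK.mono (r := Fintype.card S) ?_ hr
  refine ⟨fun s => a ((Fintype.equivFin S).symm s), fun s => b ((Fintype.equivFin S).symm s),
    fun s => c ((Fintype.equivFin S).symm s), fun k i j => ?_⟩
  rw [h]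
  exact (Equiv.sum_comp (Fintype.equivFin S).symm (fun s => a s k * b s i * c s j)).symm

/-- A single slice of rank at most two. -/
lemma RK2_single (X : Matrix (Fin 4) (Fin 4) ℂ) (hX : X.rank ≤ 2) (k0 : Fin 4) :
    RK 2 (fun k => if k = k0 then X else 0) := by
  obtain ⟨P, Q, D, hP, hQ, e⟩ := exists_diag X
  refine RK.of_mul P Q hP hQ ?_
  have hr : Fintype.card {i // D i ≠ 0} ≤ 2 := by
    rw [← Matrix.rank_diagonal, ← e, Matrix.rank_mul_eq_left_of_isUnit_det _ _ hQ,
      Matrix.rank_mul_eq_right_of_isUnit_det _ _ hP]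
    exact hX
  refine RK_of_ft (S := {i // D i ≠ 0}) (fun s => Pi.single k0 (D s.1))
    (fun s => Pi.single s.1 1) (fun s => Pi.single s.1 1) (fun k i j => ?_) hr
  have h1 : ∑ s : {i // D i ≠ 0}, (Pi.single k0 (D s.1) : Fin 4 → ℂ) k *
      (Pi.single s.1 1 : Fin 4 → ℂ) i * (Pi.single s.1 1 : Fin 4 → ℂ) j =
      ∑ s : Fin 4, (Pi.single k0 (D s) : Fin 4 → ℂ) k *
      (Pi.single s 1 : Fin 4 → ℂ) i * (Pi.single s 1 : Fin 4 → ℂ) j := by
    refine Fintype.sum_of_injective Subtype.val Subtype.val_injective _ _ ?_ (fun _ => rfl)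
    intro s hs
    have : D s = 0 := by
      by_contra hne
      exact hs ⟨⟨s, hne⟩, rfl⟩
    simp [this]
  rw [h1]
  by_cases hk : k = k0
  · subst hk
    simp only [if_true, e, Pi.single_eq_same]
    by_cases hij : i = j
    · subst hij
      simp [Pi.single_apply]
    · rw [diagonal_apply_ne _ hij]
      refine (Finset.sum_eq_zero fun s _ => ?_).symm
      by_cases h2 : i = s
      · subst h2
        simp [Ne.symm hij]
      · simp [Pi.single_apply, h2]
  · simp [hk]

/-- All four slices of rank at most two. -/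
lemma RK8_of_rank_two (M : Sl) (h : ∀ k, (M k).rank ≤ 2) : RK 8 M := by
  have h4 := (((RK2_single (M 0) (h 0) 0).add (RK2_single (M 1) (h 1) 1)).add
    (RK2_single (M 2) (h 2) 2)).add (RK2_single (M 3) (h 3) 3)
  convert h4 using 2 with k
  fin_cases k <;> simp

lemma RK.of_submatrix {r : ℕ} {M : Sl} (σ τ : Equiv.Perm (Fin 4))
    (h : RK r (fun k => (M k).submatrix σ τ)) : RK r M := by
  obtain ⟨a, b, c, h⟩ := h
  refine ⟨a, fun s i => b s (σ.symm i), fun s j => c s (τ.symm j), fun k i j => ?_⟩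
  have := h k (σ.symm i) (τ.symm j)
  simpa using this

/-- All combinations of the slices are singular. -/
def Sng (M : Sl) : Prop := ∀ x : Fin 4 → ℂ, (∑ k, x k • M k).det = 0

lemma Sng.mul {M : Sl} (h : Sng M) (P Q : Matrix (Fin 4) (Fin 4) ℂ) :
    Sng (fun k => P * M k * Q) := by
  intro x
  have : ∑ k, x k • (P * M k * Q) = P * (∑ k, x k • M k) * Q := by
    rw [Finset.mul_sum, Finset.sum_mul]
    exact Finset.sum_congr rfl fun k _ => by rw [Matrix.mul_smul, Matrix.smul_mul]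
  rw [this, Matrix.det_mul, Matrix.det_mul, h x, mul_zero, zero_mul]

lemma Sng.perm {M : Sl} (h : Sng M) (σ : Equiv.Perm (Fin 4)) : Sng (fun k => M (σ k)) := by
  intro x
  have : ∑ k, x k • M (σ k) = ∑ k, x (σ.symm k) • M k := by
    rw [← Equiv.sum_comp σ (fun k => x (σ.symm k) • M k)]
    simp
  rw [this]
  exact h _

lemma Sng.submatrix {M : Sl} (h : Sng M) (σ : Equiv.Perm (Fin 4)) :
    Sng (fun k => (M k).submatrix σ σ) := by
  intro x
  have : ∑ k, x k • (M k).submatrix σ σ = (∑ k, x k • M k).submatrix σ σ := by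
    ext i j
    simp [Matrix.sum_apply]
  rw [this, Matrix.det_submatrix_equiv_self, h x]

lemma Sng.replace {M : Sl} (h : Sng M) (i : Fin 4) (y : Fin 4 → ℂ) :
    Sng (fun k => if k = i then ∑ l, y l • M l else M k) := by
  intro x
  have : ∑ k, x k • (if k = i then ∑ l, y l • M l else M k) =
      ∑ k, ((if k = i then 0 else x k) + x i * y k) • M k := by
    simp only [add_smul, Finset.sum_add_distrib, mul_smul, ← Finset.smul_sum]
    rw [← Finset.add_sum_erase _ _ (Finset.mem_univ i),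
      ← Finset.add_sum_erase Finset.univ (fun k => (if k = i then (0 : ℂ) else x k) • M k)
        (Finset.mem_univ i)]
    simp only [if_true, zero_smul, zero_add]
    rw [add_comm]
    congr 1
    refine Finset.sum_congr rfl fun k hk => ?_
    rw [if_neg (Finset.ne_of_mem_erase hk), if_neg (Finset.ne_of_mem_erase hk)]
  rw [this]
  exact h _

lemma Sng.pencil {M : Sl} (h : Sng M) (k : Fin 4) (hk : k ≠ 0) (z : ℂ) :
    (z • M 0 + M k).det = 0 := by
  have := h (Pi.single 0 z + Pi.single k 1)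
  have e : ∑ l, ((Pi.single 0 z + Pi.single k 1 : Fin 4 → ℂ)) l • M l = z • M 0 + M k := by
    simp [add_smul, Finset.sum_add_distrib, Pi.single_apply, ite_smul]
  rwa [e] at this

lemma d_zero (N : Matrix (Fin 4) (Fin 4) ℂ)
    (h : ∀ z : ℂ, (z • diagonal ![1, 1, 1, 0] + N).det = 0) : N 3 3 = 0 := by
  have e0 := h 0
  have e1 := h 1
  have e2 := h (-1)
  have e3 := h 2
  rw [Matrix.det_succ_row_zero] at e0 e1 e2 e3
  simp [Fin.sum_univ_succ, Matrix.det_fin_three, Fin.succAbove] at e0 e1 e2 e3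
  linear_combination (1 / 6) * e3 - (1 / 2) * e1 + (1 / 2) * e0 - (1 / 6) * e2

/-- The singular case when the first slice is `diag (1, 1, 1, 0)`. -/
lemma sing_J {M : Sl} (h0 : M 0 = diagonal ![1, 1, 1, 0]) (h : Sng M) : RK 9 M := by
  have hd : ∀ k, M k 3 3 = 0 := by
    intro k
    by_cases hk : k = 0
    · subst hk; rw [h0]; simp
    · refine d_zero _ fun z => ?_
      rw [← h0]
      exact h.pencil k hk z
  by_cases hA : ∀ k, ¬ (M k 0 3 ≠ 0 ∨ M k 1 3 ≠ 0 ∨ M k 2 3 ≠ 0)
  · refine RK.mono (RK.of_rot3 (RK8_of_zero' 3 ?_)) (by norm_num)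
    ext k i
    have h1 := hA k
    push_neg at h1
    fin_cases i
    · exact h1.1
    · exact h1.2.1
    · exact h1.2.2
    · exact hd k
  by_cases hB : ∀ k, ¬ (M k 3 0 ≠ 0 ∨ M k 3 1 ≠ 0 ∨ M k 3 2 ≠ 0)
  · refine RK.mono (RK.of_rot2 (RK8_of_zero' 3 ?_)) (by norm_num)
    ext k j
    have h1 := hB k
    push_neg at h1
    fin_cases j
    · exact h1.1
    · exact h1.2.1
    · exact h1.2.2
    · exact hd k
  push_neg at hA hB
  obtain ⟨k1, hk1⟩ := hA
  obtain ⟨k2, hk2⟩ := hB
  have h10 : k1 ≠ 0 := by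
    rintro rfl
    rw [h0] at hk1
    simp at hk1
  have h20 : k2 ≠ 0 := by
    rintro rfl
    rw [h0] at hk2
    simp at hk2
  -- the case in which one slice has both properties
  have key : ∀ (M : Sl) (k : Fin 4), M 0 = diagonal ![1, 1, 1, 0] → Sng M → k ≠ 0 →
      (M k 0 3 ≠ 0 ∨ M k 1 3 ≠ 0 ∨ M k 2 3 ≠ 0) → (M k 3 0 ≠ 0 ∨ M k 3 1 ≠ 0 ∨ M k 3 2 ≠ 0) →
      RK 9 M := by
    intro M k h0 h hk ha hb
    refine RK.of_perm (Equiv.swap 1 k) (sing_ab ?_ ?_ ?_ ?_)
    · rw [Equiv.swap_apply_of_ne_of_ne (by decide) (Ne.symm hk), h0]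
    · simpa using ha
    · simpa using hb
    · have h' := h.perm (Equiv.swap 1 k)
      intro z
      exact h'.pencil 1 (by decide) z
  by_cases hb1 : M k1 3 0 ≠ 0 ∨ M k1 3 1 ≠ 0 ∨ M k1 3 2 ≠ 0
  · exact key M k1 h0 h h10 hk1 hb1
  by_cases ha2 : M k2 0 3 ≠ 0 ∨ M k2 1 3 ≠ 0 ∨ M k2 2 3 ≠ 0
  · exact key M k2 h0 h h20 ha2 hk2
  push_neg at hb1 ha2
  have h12 : k1 ≠ k2 := by
    rintro rfl
    rcases hk2 with h3 | h3 | h3
    · exact h3 hb1.1
    · exact h3 hb1.2.1
    · exact h3 hb1.2.2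
  have hy : ∑ l, (Pi.single k1 1 + Pi.single k2 1 : Fin 4 → ℂ) l • M l = M k1 + M k2 := by
    simp [add_smul, Finset.sum_add_distrib, Pi.single_apply, ite_smul]
  refine RK.of_replace k1 (Pi.single k1 1 + Pi.single k2 1) (by simp [h12]) ?_
  refine key _ k1 ?_ (h.replace k1 _) h10 ?_ ?_
  · rw [if_neg (Ne.symm h10), h0]
  · simp only [if_true, hy, Matrix.add_apply, ha2.1, ha2.2.1, ha2.2.2, add_zero]
    exact hk1
  · simp only [if_true, hy, Matrix.add_apply, hb1.1, hb1.2.1, hb1.2.2, zero_add]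
    exact hk2

/-- If every combination of the slices is singular, the rank is at most nine. -/
theorem sing (M : Sl) (h : ∀ x : Fin 4 → ℂ, (∑ k, x k • M k).det = 0) : RK 9 M := by
  have hS : Sng M := h
  by_cases hr : ∀ k, (M k).rank ≤ 2
  · exact RK.mono (RK8_of_rank_two M hr) (by norm_num)
  push_neg at hr
  obtain ⟨k, hk⟩ := hr
  refine RK.of_perm (Equiv.swap 0 k) ?_
  have hS1 := hS.perm (Equiv.swap 0 k)
  have hk' : 2 < (M (Equiv.swap 0 k 0)).rank := by simpa using hk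
  generalize hM1 : (fun k_1 => M ((Equiv.swap 0 k) k_1)) = M1 at hS1 ⊢
  have hk1 : 2 < (M1 0).rank := by rw [← hM1]; exact hk'
  clear hk' hk hM1 hS h
  obtain ⟨P, Q, D, hP, hQ, e⟩ := exists_diag (M1 0)
  refine RK.of_mul P Q hP hQ ?_
  have hS2 := hS1.mul P Q
  have hdet : ∏ i, D i = 0 := by
    have := hS2 (Pi.single 0 1)
    have e1 : ∑ l, (Pi.single 0 1 : Fin 4 → ℂ) l • (P * M1 l * Q) = P * M1 0 * Q := by
      simp [Pi.single_apply, ite_smul]
    rw [e1, e, Matrix.det_diagonal] at this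
    exact this
  obtain ⟨i0, -, hi0⟩ := Finset.prod_eq_zero_iff.mp hdet
  have hr : 2 < Fintype.card {i // D i ≠ 0} := by
    rw [← Matrix.rank_diagonal, ← e, Matrix.rank_mul_eq_left_of_isUnit_det _ _ hQ,
      Matrix.rank_mul_eq_right_of_isUnit_det _ _ hP]
    exact hk1
  have hne : ∀ i, i ≠ i0 → D i ≠ 0 := by
    intro i hi hDi
    have h1 : Fintype.card {i // D i ≠ 0} ≤ (({i, i0} : Finset (Fin 4))ᶜ).card := by
      rw [Fintype.card_subtype]
      refine Finset.card_le_card fun j hj => ?_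
      simp only [Finset.mem_filter, Finset.mem_univ, true_and] at hj
      simp only [Finset.mem_compl, Finset.mem_insert, Finset.mem_singleton]
      rintro (rfl | rfl)
      · exact hj hDi
      · exact hj hi0
    rw [Finset.card_compl, Finset.card_pair hi, Fintype.card_fin] at h1
    omega
  refine RK.of_submatrix (Equiv.swap i0 3) (Equiv.swap i0 3) ?_
  have hS3 := hS2.submatrix (Equiv.swap i0 3)
  set D' : Fin 4 → ℂ := fun i => D (Equiv.swap i0 3 i) with hD'
  have e' : (P * M1 0 * Q).submatrix (Equiv.swap i0 3) (Equiv.swap i0 3) = diagonal D' := by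
    rw [e]
    ext i j
    simp only [Matrix.submatrix_apply, Matrix.diagonal_apply, hD']
    simp
  have hD3 : D' 3 = 0 := by simp [hD', hi0]
  have hDne : ∀ i, i ≠ 3 → D' i ≠ 0 := by
    intro i hi
    refine hne _ fun h => hi ?_
    have := congrArg (Equiv.swap i0 3) h
    simpa using this
  set W : Matrix (Fin 4) (Fin 4) ℂ := diagonal ![(D' 0)⁻¹, (D' 1)⁻¹, (D' 2)⁻¹, 1] with hW
  have hWu : IsUnit W.det := by
    rw [hW, Matrix.det_diagonal, Fin.prod_univ_four, isUnit_iff_ne_zero]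
    simp [hDne 0 (by decide), hDne 1 (by decide), hDne 2 (by decide)]
  refine RK.of_mul W 1 hWu (by simp) ?_
  refine sing_J ?_ (hS3.mul W 1)
  rw [Matrix.mul_one, e', hW, Matrix.diagonal_mul_diagonal]
  congr 1
  funext i
  fin_cases i
  · simp [hDne 0 (by decide)]
  · simp [hDne 1 (by decide)]
  · simp [hDne 2 (by decide)]
  · simp [hD3]

end Pool.Agent.MR4
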